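import Pool.Agent.H87.KX.DIC

/-!
# Two distant base times with few values of the displacement force the frame to be constant
-/

set_option autoImplicit false

namespace Pool.KX

open Finset Real

/-- A linear function which is small at two separated points. -/
lemma lin_small (M s s' a a' ε g x y : ℝ) (hM : 0 < M) (hg : 0 < g) (hε : 0 ≤ ε)
    (hxy : x + g ≤ y) (hss : s < s') (hx0 : |s - x| ≤ M)
    (h1 : |((s - x) * a' - (s' - x) * a) / M| ≤ ε)
    (h2 : |((s - y) * a' - (s' - y) * a) / M| ≤ ε) :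
    |a| * ((s' - s) / M) ≤ ε * (1 + 2 * M / g) := by
  have hd : |a - a'| * (g / M) ≤ 2 * ε := by
    have e : ((s - y) * a' - (s' - y) * a) / M - ((s - x) * a' - (s' - x) * a) / M =
        (a - a') * ((y - x) / M) := by
      field_simp
      ring
    have h3 : |(a - a') * ((y - x) / M)| ≤ 2 * ε := by
      rw [← e]
      refine (abs_sub _ _).trans ?_
      linarith only [h1, h2]
    rw [abs_mul, abs_of_pos (div_pos (by linarith only [hg, hxy]) hM)] at h3
    refine le_trans ?_ h3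
    refine mul_le_mul_of_nonneg_left ?_ (abs_nonneg _)
    exact div_le_div_of_nonneg_right (by linarith only [hxy]) hM.le
  have hd' : |a - a'| ≤ ε * (2 * M / g) := by
    have h3 : |a - a'| * (g / M) ≤ (ε * (2 * M / g)) * (g / M) := by
      refine hd.trans (le_of_eq ?_)
      field_simp
    exact le_of_mul_le_mul_right h3 (div_pos hg hM)
  have e : a * ((s' - s) / M) =
      -(((s - x) * a' - (s' - x) * a) / M) + (a' - a) * ((s - x) / M) := by
    field_simp
    ring
  have h4 : |a * ((s' - s) / M)| ≤ ε + ε * (2 * M / g) := by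
    rw [e]
    refine (abs_add_le _ _).trans ?_
    have e2 : |(s - x) / M| = |s - x| / M := by rw [abs_div, abs_of_pos hM]
    rw [abs_neg, abs_mul, abs_sub_comm a' a, e2]
    have h5 : |s - x| / M ≤ 1 := by rwa [div_le_one hM]
    have h6 := mul_le_mul hd' h5 (by positivity) (by positivity)
    linarith only [h1, h6]
  rw [abs_mul, abs_of_pos (div_pos (by linarith only [hss] : (0 : ℝ) < s' - s) hM)] at h4
  linarith only [h4]

theorem dic2_thm (Th : ℕ → ℝ) (M K K₂ u v w : ℕ) (hM : 2 ^ (2 * K + w + 11) ≤ M)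
    (hK : 6 * K + 4 * w + v + u + 40 ≤ K₂) (hTh : ∀ t < M, |Th t| ≤ 1) (s s' : ℕ)
    (hs' : s' < M) (hss : M ≤ 2 ^ v * (s' - s)) (G : Finset ℕ) (hG : G ⊆ range M)
    (h : ∀ t₁ ∈ G, ∀ t₂ ∈ G, ¬ (1 / 2 ^ K₂ ≤ |cd Th M t₁ s - cd Th M t₂ s| ∧
        |cd Th M t₁ s - cd Th M t₂ s| ≤ 1 / 2 ^ K))
    (h' : ∀ t₁ ∈ G, ∀ t₂ ∈ G, ¬ (1 / 2 ^ K₂ ≤ |cd Th M t₁ s' - cd Th M t₂ s'| ∧
        |cd Th M t₁ s' - cd Th M t₂ s'| ≤ 1 / 2 ^ K)) :
    2 ^ w * (G.filter fun t => 1 / 2 ^ u < |Th t - Th s|).card ≤ M := by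
  classical
  set n : ℕ := 2 ^ (K + 2) + 1 with hn
  have hM0' : 0 < M := lt_of_lt_of_le (by positivity) hM
  have hM0 : (0 : ℝ) < M := by exact_mod_cast hM0'
  have hlt : s < s' := by
    by_contra hcon
    push Not at hcon
    rw [Nat.sub_eq_zero_of_le hcon, Nat.mul_zero] at hss
    omega
  have hsM : s < M := hlt.trans hs'
  have hδ : (0 : ℝ) < 1 / 2 ^ K := by positivity
  set δ₂ : ℝ := 1 / 2 ^ K₂ with hδ₂
  have hδ₂0 : 0 < δ₂ := by positivity
  have hnδ : (4 : ℝ) < n * (1 / 2 ^ K) := by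
    rw [mul_one_div, lt_div_iff₀ (by positivity)]
    rw [hn]
    push_cast
    rw [pow_add]
    linarith only
  have hquot : ∀ x : ℕ, x < M → ∀ t ∈ G, |((x : ℝ) - t) / M| ≤ 1 := by
    intro x hx t ht
    have ht' : t < M := Finset.mem_range.mp (hG ht)
    rw [abs_div, abs_of_pos hM0, div_le_one hM0, abs_le]
    have h1' : (x : ℝ) < M := by exact_mod_cast hx
    have h2' : (t : ℝ) < M := by exact_mod_cast ht'
    have h4 : (0 : ℝ) ≤ x := Nat.cast_nonneg x
    have h5 : (0 : ℝ) ≤ t := Nat.cast_nonneg t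
    constructor <;> linarith
  have hcd : ∀ x : ℕ, x < M → ∀ t ∈ G, |cd Th M t x| ≤ 2 := by
    intro x hx t ht
    have ht' : t < M := Finset.mem_range.mp (hG ht)
    have h4 : |Th x - Th t| ≤ 2 := by
      refine (abs_sub _ _).trans ?_
      linarith only [hTh, hx, ht', hTh x hx, hTh t ht']
    unfold cd
    rw [abs_mul]
    calc _ ≤ 1 * 2 := mul_le_mul (hquot x hx t ht) h4 (abs_nonneg _) zero_le_one
      _ = 2 := by norm_num
  obtain ⟨j, hj1, hj2⟩ := classes G (fun t => cd Th M t s) (1 / 2 ^ K) δ₂ n hδ hnδ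
    (hcd s hsM) h
  obtain ⟨j', hj1', hj2'⟩ := classes G (fun t => cd Th M t s') (1 / 2 ^ K) δ₂ n hδ hnδ
    (hcd s' hs') h'
  set Ez : ℕ × ℕ → Finset ℕ := fun z => G.filter fun t => (j t, j' t) = z with hEz
  set Bad := G.filter fun t => 1 / 2 ^ u < |Th t - Th s| with hBad
  set near := (range M).filter fun t => 2 ^ (w + 3) * (t - s) < M ∧ 2 ^ (w + 3) * (s - t) < M
    with hnear
  obtain ⟨q₀, hq₀⟩ : ∃ q : ℕ, q = M / 2 ^ (2 * K + 7 + w) := ⟨_, rfl⟩
  set m₀ : ℕ := q₀ + 4 with hm₀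
  -- points of large classes which are not near `s` are not bad
  have key : ∀ z, m₀ ≤ (Ez z).card → ∀ t ∈ Ez z, t ∉ near → t ∉ Bad := by
    intro z hz t ht htn htB
    set E := Ez z with hE
    have hE4 : 4 ≤ E.card := by omega
    set g : ℕ := (E.card - 1) / 2 with hg
    have hg1 : 2 * g + 1 ≤ E.card := by omega
    have hg2 : E.card ≤ 4 * g := by omega
    have hg0 : (0 : ℝ) < g := by
      have : 0 < g := by omega
      exact_mod_cast this
    obtain ⟨a, ha, b, hb, c, hc, hab, hbc⟩ := three E g hg1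
    have hmem : ∀ x ∈ E, x ∈ G ∧ j x = j t ∧ j' x = j' t := by
      intro x hx
      have h1 := Finset.mem_filter.mp hx
      have h2 := Finset.mem_filter.mp ht
      have h4 := h1.2.trans h2.2.symm
      rw [Prod.mk.injEq] at h4
      exact ⟨h1.1, h4.1, h4.2⟩
    have htG : t ∈ G := (hmem t ht).1
    set A := cd Th M t s with hA
    set A' := cd Th M t s' with hA'
    set D := (Th s - Th s') / (M : ℝ) ^ 2 with hD
    have hid : ∀ x : ℕ, D * (x : ℝ) ^ 2 + (-D * (s + s') + A / M - A' / M) * x +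
        (D * s * s' - A * s' / M + A' * s / M) =
        ((s' : ℝ) - x) / M * (cd Th M x s - A) - ((s : ℝ) - x) / M * (cd Th M x s' - A') := by
      intro x
      rw [hD]
      unfold cd
      field_simp
      ring
    have hpol : ∀ x ∈ E, |D * (x : ℝ) ^ 2 + (-D * (s + s') + A / M - A' / M) * x +
        (D * s * s' - A * s' / M + A' * s / M)| ≤ 2 * δ₂ := by
      intro x hx
      obtain ⟨h1, h3, h4⟩ := hmem x hx
      have h5 := hj2 x h1 t htG h3
      have h6 := hj2' x h1 t htG h4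
      rw [hid]
      refine (abs_sub _ _).trans ?_
      rw [abs_mul, abs_mul]
      have h8 := mul_le_mul (hquot s' hs' x h1) h5.le (abs_nonneg _) zero_le_one
      have h9 := mul_le_mul (hquot s hsM x h1) h6.le (abs_nonneg _) zero_le_one
      linarith only [h8, h9]
    have hlead := lead D (-D * (s + s') + A / M - A' / M)
      (D * s * s' - A * s' / M + A' * s / M) (2 * δ₂) g a b c hg0 (by exact_mod_cast hab)
      (by exact_mod_cast hbc) (hpol a ha) (hpol b hb) (hpol c hc)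
    -- the size of the class
    have hgM : (M : ℝ) ≤ 2 ^ (2 * K + 9 + w) * g := by
      have h1 : M < 2 ^ (2 * K + 7 + w) * (4 * g) := by
        have h2 := Nat.lt_div_mul_add (a := M) (b := 2 ^ (2 * K + 7 + w)) (by positivity)
        rw [← hq₀] at h2
        have h3 : q₀ + 1 ≤ 4 * g := by omega
        have h4 := Nat.mul_le_mul_left (2 ^ (2 * K + 7 + w)) h3
        have h5 : 2 ^ (2 * K + 7 + w) * (q₀ + 1) =
            q₀ * 2 ^ (2 * K + 7 + w) + 2 ^ (2 * K + 7 + w) := by ring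
        omega
      have h2 : (M : ℝ) ≤ 2 ^ (2 * K + 7 + w) * (4 * g) := by exact_mod_cast h1.le
      calc (M : ℝ) ≤ 2 ^ (2 * K + 7 + w) * (4 * g) := h2
        _ = 2 ^ (2 * K + 9 + w) * g := by ring
    set R : ℝ := 2 ^ (2 * K + 9 + w) with hR
    have hR1 : 1 ≤ R := one_le_pow₀ (by norm_num)
    set Δ := |Th s - Th s'| with hΔ
    have hΔ0 : 0 ≤ Δ := abs_nonneg _
    have hΔb : Δ ≤ 4 * δ₂ * R ^ 2 := by
      rw [hD, abs_div, abs_of_pos (by positivity : (0 : ℝ) < (M : ℝ) ^ 2)] at hlead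
      rw [div_mul_eq_mul_div, div_le_iff₀ (by positivity)] at hlead
      have h1 : Δ * (g : ℝ) ^ 2 ≤ (4 * δ₂ * R ^ 2) * (g : ℝ) ^ 2 := by
        calc Δ * (g : ℝ) ^ 2 ≤ 2 * (2 * δ₂) * (M : ℝ) ^ 2 := hlead
          _ ≤ 2 * (2 * δ₂) * (R * g) ^ 2 :=
            mul_le_mul_of_nonneg_left (pow_le_pow_left₀ hM0.le hgM 2) (by positivity)
          _ = _ := by ring
      exact le_of_mul_le_mul_right h1 (by positivity)
    -- the linear part
    have hlin : ∀ x ∈ E, |(((s : ℝ) - x) * A' - (s' - x) * A) / M| ≤ 2 * δ₂ + Δ := by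
      intro x hx
      have h1 := hpol x hx
      have h2 : (((s : ℝ) - x) * A' - (s' - x) * A) / M =
          (D * (x : ℝ) ^ 2 + (-D * (s + s') + A / M - A' / M) * x +
            (D * s * s' - A * s' / M + A' * s / M)) -
          (Th s - Th s') * (((s' : ℝ) - x) / M * (((s : ℝ) - x) / M)) := by
        rw [hD]
        field_simp
        ring
      rw [h2]
      refine (abs_sub _ _).trans ?_
      rw [abs_mul, abs_mul]
      have h3 := mul_le_mul (hquot s' hs' x (hmem x hx).1) (hquot s hsM x (hmem x hx).1)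
        (abs_nonneg _) zero_le_one
      have h4 := mul_le_mul_of_nonneg_left h3 hΔ0
      linarith only [h1, h4]
    have haM : |(s : ℝ) - a| ≤ M := by
      have h1 := hquot s hsM a (hmem a ha).1
      rwa [abs_div, abs_of_pos hM0, div_le_one hM0] at h1
    have hA1 := lin_small M s s' A A' (2 * δ₂ + Δ) g a b hM0 hg0 (by positivity)
      (by exact_mod_cast hab) (by exact_mod_cast hlt) haM (hlin a ha) (hlin b hb)
    -- the distance of the base times
    have hsep : (M : ℝ) ≤ 2 ^ v * (s' - s) := by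
      have h1 : (M : ℝ) ≤ ((2 ^ v * (s' - s) : ℕ) : ℝ) := by exact_mod_cast hss
      rwa [Nat.cast_mul, Nat.cast_sub hlt.le, Nat.cast_pow, Nat.cast_ofNat] at h1
    have hA2 : |A| ≤ 2 ^ v * ((2 * δ₂ + Δ) * (1 + 2 * M / g)) := by
      have h1 : 1 ≤ 2 ^ v * (((s' : ℝ) - s) / M) := by
        rw [← mul_div_assoc, le_div_iff₀ hM0, one_mul]
        exact hsep
      calc |A| = |A| * 1 := (mul_one _).symm
        _ ≤ |A| * (2 ^ v * (((s' : ℝ) - s) / M)) :=
          mul_le_mul_of_nonneg_left h1 (abs_nonneg _)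
        _ = 2 ^ v * (|A| * (((s' : ℝ) - s) / M)) := by ring
        _ ≤ _ := mul_le_mul_of_nonneg_left hA1 (by positivity)
    have hMg : 1 + 2 * (M : ℝ) / g ≤ 4 * R := by
      have h1 : (M : ℝ) / g ≤ R := by rwa [div_le_iff₀ hg0]
      have h2 : 2 * (M : ℝ) / g = 2 * (M / g) := by ring
      rw [h2]
      linarith only [hR1, h1]
    have h2δ : 2 * δ₂ + Δ ≤ 8 * δ₂ * R ^ 2 := by
      have h1 : (1 : ℝ) ≤ R ^ 2 := one_le_pow₀ hR1
      nlinarith only [hδ₂0, hΔb, h1]
    have hA3 : |A| ≤ 2 ^ v * (8 * δ₂ * R ^ 2 * (4 * R)) := by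
      refine hA2.trans (mul_le_mul_of_nonneg_left ?_ (by positivity))
      exact mul_le_mul h2δ hMg (by positivity) (by positivity)
    -- the frame
    have hts : (M : ℝ) ≤ 2 ^ (w + 3) * |(s : ℝ) - t| := by
      have htM : t < M := Finset.mem_range.mp (hG htG)
      have h1 : M ≤ 2 ^ (w + 3) * (t - s) ∨ M ≤ 2 ^ (w + 3) * (s - t) := by
        by_contra hcon
        push Not at hcon
        exact htn (Finset.mem_filter.mpr ⟨Finset.mem_range.mpr htM, hcon⟩)
      rcases h1 with h1 | h1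
      · have h2 : s ≤ t := by
          by_contra h3
          push Not at h3
          rw [Nat.sub_eq_zero_of_le h3.le, Nat.mul_zero] at h1
          omega
        have h3 : (M : ℝ) ≤ ((2 ^ (w + 3) * (t - s) : ℕ) : ℝ) := by exact_mod_cast h1
        rw [Nat.cast_mul, Nat.cast_sub h2, Nat.cast_pow, Nat.cast_ofNat] at h3
        refine h3.trans (mul_le_mul_of_nonneg_left ?_ (by positivity))
        rw [abs_sub_comm]
        exact le_abs_self _
      · have h2 : t ≤ s := by
          by_contra h3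
          push Not at h3
          rw [Nat.sub_eq_zero_of_le h3.le, Nat.mul_zero] at h1
          omega
        have h3 : (M : ℝ) ≤ ((2 ^ (w + 3) * (s - t) : ℕ) : ℝ) := by exact_mod_cast h1
        rw [Nat.cast_mul, Nat.cast_sub h2, Nat.cast_pow, Nat.cast_ofNat] at h3
        refine h3.trans (mul_le_mul_of_nonneg_left (le_abs_self _) (by positivity))
    have hfin : |Th t - Th s| ≤ 2 ^ (w + 3) * |A| := by
      have h1 : |A| = |(s : ℝ) - t| / M * |Th s - Th t| := by
        rw [hA]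
        unfold cd
        rw [abs_mul, abs_div, abs_of_pos hM0]
      have h2 : 1 ≤ 2 ^ (w + 3) * (|(s : ℝ) - t| / M) := by
        rw [← mul_div_assoc, le_div_iff₀ hM0, one_mul]
        exact hts
      rw [h1, abs_sub_comm]
      calc |Th s - Th t| = 1 * |Th s - Th t| := (one_mul _).symm
        _ ≤ (2 ^ (w + 3) * (|(s : ℝ) - t| / M)) * |Th s - Th t| :=
          mul_le_mul_of_nonneg_right h2 (abs_nonneg _)
        _ = _ := by ring
    have hend : |Th t - Th s| ≤ 1 / 2 ^ u := by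
      refine hfin.trans ?_
      refine (mul_le_mul_of_nonneg_left hA3 (by positivity)).trans ?_
      have h1 : (2 : ℝ) ^ (w + 3) * (2 ^ v * (8 * δ₂ * R ^ 2 * (4 * R))) =
          2 ^ (6 * K + 4 * w + v + 35) / 2 ^ K₂ := by
        rw [hR, hδ₂]
        have e : (2 : ℝ) ^ (6 * K + 4 * w + v + 35) = 2 ^ (w + 3) * 2 ^ v * 2 ^ 5 *
            (2 ^ (2 * K + 9 + w)) ^ 3 := by
          rw [← pow_mul, ← pow_add, ← pow_add, ← pow_add]
          congr 1
          ring
        rw [e]
        ring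
      rw [h1, div_le_div_iff₀ (by positivity) (by positivity), one_mul, ← pow_add]
      exact pow_le_pow_right₀ (by norm_num) (by omega)
    have h1 := (Finset.mem_filter.mp htB).2
    linarith only [hend, h1]
  -- counting
  have hcount : Bad.card ≤ (n + 1) ^ 2 * m₀ + near.card := by
    set Sm := ((range (n + 1)) ×ˢ (range (n + 1))).filter fun z => (Ez z).card < m₀ with hSm
    have h1 : Bad ⊆ Sm.biUnion Ez ∪ near := by
      intro t ht
      rw [Finset.mem_union]
      by_cases htn : t ∈ near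
      · exact Or.inr htn
      · left
        have htG : t ∈ G := (Finset.mem_filter.mp ht).1
        rw [Finset.mem_biUnion]
        refine ⟨(j t, j' t), ?_, Finset.mem_filter.mpr ⟨htG, rfl⟩⟩
        rw [hSm, Finset.mem_filter, Finset.mem_product, Finset.mem_range, Finset.mem_range]
        refine ⟨⟨Nat.lt_succ_of_le (hj1 t htG), Nat.lt_succ_of_le (hj1' t htG)⟩, ?_⟩
        by_contra hcon
        push Not at hcon
        exact key _ hcon t (Finset.mem_filter.mpr ⟨htG, rfl⟩) htn ht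
    have h2 : (Sm.biUnion Ez).card ≤ Sm.card * m₀ := by
      refine Finset.card_biUnion_le_card_mul _ _ _ ?_
      intro z hz
      exact (Finset.mem_filter.mp hz).2.le
    have h3 : Sm.card ≤ (n + 1) ^ 2 := by
      refine (Finset.card_filter_le _ _).trans ?_
      rw [Finset.card_product, Finset.card_range, sq]
    calc Bad.card ≤ (Sm.biUnion Ez ∪ near).card := Finset.card_le_card h1
      _ ≤ (Sm.biUnion Ez).card + near.card := Finset.card_union_le _ _
      _ ≤ Sm.card * m₀ + near.card := Nat.add_le_add_right h2 _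
      _ ≤ (n + 1) ^ 2 * m₀ + near.card :=
        Nat.add_le_add_right (Nat.mul_le_mul_right _ h3) _
  have hn8 : (n + 1) ^ 2 ≤ 2 ^ (2 * K + 6) := by
    have h1 : n + 1 ≤ 2 ^ (K + 3) := by
      rw [hn, pow_add 2 K 3, pow_add 2 K 2]
      have := Nat.one_le_two_pow (n := K)
      omega
    calc (n + 1) ^ 2 ≤ (2 ^ (K + 3)) ^ 2 := Nat.pow_le_pow_left h1 2
      _ = 2 ^ (2 * K + 6) := by rw [← pow_mul]; congr 1; ring
  have hnear2 : 2 ^ (w + 2) * near.card ≤ M + 2 ^ (w + 2) := by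
    have h1 : near ⊆ Finset.Icc (s - M / 2 ^ (w + 3)) (s + M / 2 ^ (w + 3)) := by
      intro t ht
      have h2 := (Finset.mem_filter.mp ht).2
      have h3 : t - s ≤ M / 2 ^ (w + 3) := by
        rw [Nat.le_div_iff_mul_le (by positivity)]
        have := h2.1
        rw [Nat.mul_comm] at this
        exact this.le
      have h4 : s - t ≤ M / 2 ^ (w + 3) := by
        rw [Nat.le_div_iff_mul_le (by positivity)]
        have := h2.2
        rw [Nat.mul_comm] at this
        exact this.le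
      rw [Finset.mem_Icc]
      omega
    have h2 := Finset.card_le_card h1
    rw [Nat.card_Icc] at h2
    have h3 : near.card ≤ 2 * (M / 2 ^ (w + 3)) + 1 := by omega
    have h4 : 2 ^ (w + 3) * (M / 2 ^ (w + 3)) ≤ M := Nat.mul_div_le M _
    have h5 : 2 ^ (w + 3) = 2 * 2 ^ (w + 2) := by ring
    calc 2 ^ (w + 2) * near.card ≤ 2 ^ (w + 2) * (2 * (M / 2 ^ (w + 3)) + 1) :=
          Nat.mul_le_mul_left _ h3
      _ = 2 ^ (w + 3) * (M / 2 ^ (w + 3)) + 2 ^ (w + 2) := by rw [h5]; ring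
      _ ≤ M + 2 ^ (w + 2) := Nat.add_le_add_right h4 _
  have hm2 : 2 ^ (w + 2) * ((n + 1) ^ 2 * m₀) ≤ 2 * M + 2 ^ (2 * K + w + 10) := by
    have h1 : 2 ^ (w + 2) * ((n + 1) ^ 2 * m₀) ≤ 2 ^ (w + 2) * (2 ^ (2 * K + 6) * m₀) :=
      Nat.mul_le_mul_left _ (Nat.mul_le_mul_right _ hn8)
    refine h1.trans ?_
    rw [hm₀]
    have h2 : 2 ^ (2 * K + 7 + w) * q₀ ≤ M := by
      rw [hq₀]
      exact Nat.mul_div_le M _
    calc 2 ^ (w + 2) * (2 ^ (2 * K + 6) * (q₀ + 4))
        = 2 * (2 ^ (2 * K + 7 + w) * q₀) + 2 ^ (2 * K + w + 10) := by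
          ring
      _ ≤ 2 * M + 2 ^ (2 * K + w + 10) := Nat.add_le_add_right (Nat.mul_le_mul_left 2 h2) _
  have hfinal : 2 ^ (w + 2) * Bad.card ≤ 4 * M := by
    have h1 := Nat.mul_le_mul_left (2 ^ (w + 2)) hcount
    rw [Nat.mul_add] at h1
    have h2 : 2 ^ (2 * K + w + 10) + 2 ^ (w + 2) ≤ M := by
      have h3 : 2 ^ (w + 2) ≤ 2 ^ (2 * K + w + 10) := Nat.pow_le_pow_right (by norm_num) (by omega)
      have h4 : 2 ^ (2 * K + w + 11) = 2 * 2 ^ (2 * K + w + 10) := by ring
      omega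
    omega
  have h4 : 2 ^ (w + 2) = 4 * 2 ^ w := by ring
  rw [h4, Nat.mul_assoc] at hfinal
  exact Nat.le_of_mul_le_mul_left hfinal (by norm_num)

end Pool.KX
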