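import Pool.Agent.H87.KX.UTL
import Pool.Agent.H87.KX.DIC2

/-!
# The unified translation lemma for all base times

Either the frame is constant up to `2 ^ (-u)` outside a set of times of density `2 ^ (1 - w)`, or
the first `K` rows of the block are full at all base times outside an interval of length
`M / 2 ^ v`.
-/

set_option autoImplicit false

namespace Pool.KX

open Finset Real
open Pool.Agent.H49.Ent Pool.Agent.H32.Dense Pool.STK Pool.KAL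

/-- Two partners of one base time with different displacements make the rows full. -/
lemma full_of_pair {Ω U : Type} [Fintype Ω] {p : Ω → ℝ} (hp : IsLaw p) (X : Ω → ℤ) (V : Ω → U)
    (K K₂ u₀ L : ℕ) (c₁ c₂ d e : ℝ) (x₁ x₂ : ℤ) (hKK : K ≤ K₂)
    (hL : K₂ + u₀ + 2 ≤ L) (hd : 1 / 2 ^ u₀ ≤ |d|) (hd1 : |d| ≤ 1) (he : 0 ≤ e)
    (he2 : 18 * 4 ^ (K₂ + u₀ + 1) * e ≤ 1)
    (h₁ : |(x₁ : ℝ) - 2 ^ L * c₁ * d| ≤ 1) (h₂ : |(x₂ : ℝ) - 2 ^ L * c₂ * d| ≤ 1)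
    (i₁ : TIV p X V x₁ e) (i₂ : TIV p X V x₂ e)
    (hlow : 1 / 2 ^ K₂ ≤ |c₁ - c₂|) (hupp : |c₁ - c₂| ≤ 1 / 2 ^ (K + 1)) :
    K * Real.log 2 - 5 ≤ CH p (fun ω => X ω / ((2 ^ (L - K) : ℕ) : ℤ))
      (fun ω => (X ω / ((2 ^ L : ℕ) : ℤ), V ω)) := by
  classical
  set y : ℤ := x₁ - x₂ with hy
  set c : ℝ := c₁ - c₂ with hc
  have hyc : |(y : ℝ) - 2 ^ L * c * d| ≤ 2 := by
    have e1 : (y : ℝ) - 2 ^ L * c * d = ((x₁ : ℝ) - 2 ^ L * c₁ * d) -
        ((x₂ : ℝ) - 2 ^ L * c₂ * d) := by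
      rw [hy, hc]
      push_cast
      ring
    rw [e1]
    refine (abs_sub _ _).trans ?_
    linarith
  have hTy : TIV p X V y (2 * e) := by
    have h2 := (ti2_thm Ω U ℤ p X V x₂ x₂ e e i₂ i₂).2.1
    have h3 := (ti2_thm Ω U ℤ p X V x₁ (-x₂) e e i₁ h2).1
    rw [← sub_eq_add_neg] at h3
    rw [two_mul]
    exact h3
  have hcd : |2 ^ L * c * d| = 2 ^ L * |c| * |d| := by
    rw [abs_mul, abs_mul, abs_of_pos (by positivity : (0 : ℝ) < 2 ^ L)]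
  have hylow : (2 : ℤ) ^ (L - K₂ - u₀ - 1) ≤ |y| := by
    have h1 : (2 : ℝ) ^ (L - K₂ - u₀) ≤ 2 ^ L * |c| * |d| := by
      have h2 : (1 : ℝ) / 2 ^ K₂ * (1 / 2 ^ u₀) ≤ |c| * |d| :=
        mul_le_mul hlow hd (by positivity) (abs_nonneg _)
      have h3 : (2 : ℝ) ^ (L - K₂ - u₀) = 2 ^ L * (1 / 2 ^ K₂ * (1 / 2 ^ u₀)) := by
        have h4 : (2 : ℝ) ^ L = 2 ^ (L - K₂ - u₀) * (2 ^ K₂ * 2 ^ u₀) := by
          rw [← pow_add, ← pow_add]
          congr 1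
          omega
        rw [h4]
        field_simp
      rw [h3, mul_assoc]
      exact mul_le_mul_of_nonneg_left h2 (by positivity)
    have h5 : (2 : ℝ) ^ (L - K₂ - u₀) - 2 ≤ |(y : ℝ)| := by
      have h6 := abs_sub_abs_le_abs_sub (2 ^ L * c * d) (y : ℝ)
      rw [abs_sub_comm (2 ^ L * c * d) (y : ℝ)] at h6
      rw [hcd] at h6
      linarith
    have h7 : (2 : ℝ) ^ (L - K₂ - u₀ - 1) ≤ |(y : ℝ)| := by
      have h8 : (2 : ℝ) ^ (L - K₂ - u₀) = 2 * 2 ^ (L - K₂ - u₀ - 1) := by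
        rw [← pow_succ']
        congr 1
        omega
      have h9 : (2 : ℝ) ≤ 2 ^ (L - K₂ - u₀ - 1) := by
        calc (2 : ℝ) = 2 ^ 1 := by norm_num
          _ ≤ 2 ^ (L - K₂ - u₀ - 1) := pow_le_pow_right₀ (by norm_num) (by omega)
      linarith
    have h10 : (((2 : ℤ) ^ (L - K₂ - u₀ - 1) : ℤ) : ℝ) ≤ ((|y| : ℤ) : ℝ) := by
      push_cast
      exact h7
    exact_mod_cast h10
  have hyupp : |y| ≤ (2 : ℤ) ^ (L - K) := by
    have h1 : 2 ^ L * |c| * |d| ≤ 2 ^ (L - K - 1) := by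
      have h2 : |c| * |d| ≤ 1 / 2 ^ (K + 1) := by
        calc |c| * |d| ≤ 1 / 2 ^ (K + 1) * 1 :=
              mul_le_mul hupp hd1 (abs_nonneg _) (by positivity)
          _ = 1 / 2 ^ (K + 1) := mul_one _
      have h3 : (2 : ℝ) ^ (L - K - 1) = 2 ^ L * (1 / 2 ^ (K + 1)) := by
        have h4 : (2 : ℝ) ^ L = 2 ^ (L - K - 1) * 2 ^ (K + 1) := by
          rw [← pow_add]
          congr 1
          omega
        rw [h4]
        field_simp
      rw [h3, mul_assoc]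
      exact mul_le_mul_of_nonneg_left h2 (by positivity)
    have h5 : |(y : ℝ)| ≤ 2 ^ (L - K - 1) + 2 := by
      have h6 := abs_sub_abs_le_abs_sub (y : ℝ) (2 ^ L * c * d)
      rw [hcd] at h6
      linarith
    have h8 : (2 : ℝ) ^ (L - K) = 2 * 2 ^ (L - K - 1) := by
      rw [← pow_succ']
      congr 1
      omega
    have h9 : (2 : ℝ) ≤ 2 ^ (L - K - 1) := by
      calc (2 : ℝ) = 2 ^ 1 := by norm_num
        _ ≤ 2 ^ (L - K - 1) := pow_le_pow_right₀ (by norm_num) (by omega)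
    have h10 : ((|y| : ℤ) : ℝ) ≤ (((2 : ℤ) ^ (L - K) : ℤ) : ℝ) := by
      push_cast
      linarith
    exact_mod_cast h10
  have h1 := full_of_tiv hp X V (L - K) L (L - K₂ - u₀ - 1) y (2 * e) (Nat.sub_le L K)
    hylow hyupp (by positivity) (by
      rw [show L - (L - K₂ - u₀ - 1) = K₂ + u₀ + 1 by omega]
      linarith) hTy
  rw [Nat.cast_sub (by omega : K ≤ L)] at h1
  have e1 : ((L : ℝ) - (L - K)) * Real.log 2 - 5 = K * Real.log 2 - 5 := by ring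
  rw [e1] at h1
  exact h1

/-- The first `K` rows of the block are full, given `V`. -/
def Full {Ω U : Type} [Fintype Ω] (p : Ω → ℝ) (X : Ω → ℤ) (V : Ω → U) (K L : ℕ) : Prop :=
  K * Real.log 2 - 5 ≤ CH p (fun ω => X ω / ((2 ^ (L - K) : ℕ) : ℤ))
    (fun ω => (X ω / ((2 ^ L : ℕ) : ℤ), V ω))

open Classical in
/-- **The unified translation lemma** at one context, for all base times. -/
theorem utl2_thm (Ω U : Type) [Fintype Ω] (p : Ω → ℝ) (hp : IsLaw p) (Nh : ℕ → Ω → ℤ)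
    (V : ℕ → Ω → U) (Th : ℕ → ℝ) (M K K₂ u v w u₀ L : ℕ) (d e : ℝ) (x : ℕ → ℕ → ℤ)
    (hM : 2 ^ (2 * K + w + 13) ≤ M) (hK : 6 * K + 4 * w + v + u + 46 ≤ K₂)
    (hL : K₂ + u₀ + 2 ≤ L)
    (hd : 1 / 2 ^ u₀ ≤ |d|) (hd1 : |d| ≤ 1) (he : 0 ≤ e)
    (he2 : 18 * 4 ^ (K₂ + u₀ + 1) * e ≤ 1) (hTh : ∀ t < M, |Th t| ≤ 1)
    (T : Finset ℕ) (hT : T ⊆ range M) (G : ℕ → Finset ℕ) (hG : ∀ s ∈ T, G s ⊆ range M)
    (hcard : ∀ s ∈ T, 2 ^ (w + 1) * (M - (G s).card) ≤ M)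
    (hx : ∀ s ∈ T, ∀ t ∈ G s, |(x t s : ℝ) - 2 ^ L * cd Th M t s * d| ≤ 1)
    (hinv : ∀ s ∈ T, ∀ t ∈ G s, TIV p (Nh s) (V s) (x t s) e) :
    (∃ s ∈ T, 2 ^ w * ((range M).filter fun t => 1 / 2 ^ u < |Th t - Th s|).card ≤ 2 * M) ∨
    ∀ s ∈ T, ∀ s' ∈ T, ¬ Full p (Nh s) (V s) K L → ¬ Full p (Nh s') (V s') K L →
      2 ^ v * (s' - s) < M := by
  by_cases hex : ∃ s ∈ T, ∃ s' ∈ T, ¬ Full p (Nh s) (V s) K L ∧ ¬ Full p (Nh s') (V s') K L ∧
      M ≤ 2 ^ v * (s' - s)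
  · left
    obtain ⟨s, hs, s', hs', hf, hf', hss⟩ := hex
    refine ⟨s, hs, ?_⟩
    have hno : ∀ s ∈ T, ¬ Full p (Nh s) (V s) K L → ∀ t₁ ∈ G s, ∀ t₂ ∈ G s,
        ¬ (1 / 2 ^ K₂ ≤ |cd Th M t₁ s - cd Th M t₂ s| ∧
          |cd Th M t₁ s - cd Th M t₂ s| ≤ 1 / 2 ^ (K + 1)) := by
      intro s hs hf t₁ h₁ t₂ h₂ hh
      exact hf (full_of_pair hp (Nh s) (V s) K K₂ u₀ L _ _ d e (x t₁ s) (x t₂ s) (by omega)
        hL hd hd1 he he2 (hx s hs t₁ h₁) (hx s hs t₂ h₂) (hinv s hs t₁ h₁) (hinv s hs t₂ h₂)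
        hh.1 hh.2)
    have h1 := dic2_thm Th M (K + 1) K₂ u v w
      (by rw [show 2 * (K + 1) + w + 11 = 2 * K + w + 13 by ring]; exact hM) (by omega) hTh s s'
      (Finset.mem_range.mp (hT hs')) hss (G s ∩ G s')
      (Finset.inter_subset_left.trans (hG s hs))
      (fun t₁ h₁ t₂ h₂ => hno s hs hf t₁ (Finset.mem_inter.mp h₁).1 t₂ (Finset.mem_inter.mp h₂).1)
      (fun t₁ h₁ t₂ h₂ => hno s' hs' hf' t₁ (Finset.mem_inter.mp h₁).2 t₂
        (Finset.mem_inter.mp h₂).2)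
    have h2 : ((range M).filter fun t => 1 / 2 ^ u < |Th t - Th s|) ⊆
        ((G s ∩ G s').filter fun t => 1 / 2 ^ u < |Th t - Th s|) ∪
          ((range M \ G s) ∪ (range M \ G s')) := by
      intro t ht
      have h3 := Finset.mem_filter.mp ht
      rw [Finset.mem_union, Finset.mem_union, Finset.mem_filter, Finset.mem_inter,
        Finset.mem_sdiff, Finset.mem_sdiff]
      by_cases h4 : t ∈ G s
      · by_cases h5 : t ∈ G s'
        · exact Or.inl ⟨⟨h4, h5⟩, h3.2⟩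
        · exact Or.inr (Or.inr ⟨h3.1, h5⟩)
      · exact Or.inr (Or.inl ⟨h3.1, h4⟩)
    have h3 := Finset.card_le_card h2
    have h4 := Finset.card_union_le
      ((G s ∩ G s').filter fun t => 1 / 2 ^ u < |Th t - Th s|)
      ((range M \ G s) ∪ (range M \ G s'))
    have h5 := Finset.card_union_le (range M \ G s) (range M \ G s')
    have h6 : (range M \ G s).card = M - (G s).card := by
      rw [Finset.card_sdiff_of_subset (hG s hs), Finset.card_range]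
    have h7 : (range M \ G s').card = M - (G s').card := by
      rw [Finset.card_sdiff_of_subset (hG s' hs'), Finset.card_range]
    rw [h6, h7] at h5
    have h8 := hcard s hs
    have h9 := hcard s' hs'
    have h10 : ((range M).filter fun t => 1 / 2 ^ u < |Th t - Th s|).card ≤
        ((G s ∩ G s').filter fun t => 1 / 2 ^ u < |Th t - Th s|).card +
          ((M - (G s).card) + (M - (G s').card)) := by omega
    have h11 := Nat.mul_le_mul_left (2 ^ w) h10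
    rw [Nat.mul_add, Nat.mul_add] at h11
    have h12 : 2 ^ (w + 1) = 2 * 2 ^ w := by ring
    rw [h12, Nat.mul_assoc] at h8 h9
    omega
  · right
    intro s hs s' hs' hf hf'
    by_contra hcon
    push Not at hcon
    exact hex ⟨s, hs, s', hs', hf, hf', hcon⟩

end Pool.KX
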