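import Mathlib

/-!
# Either the frame is constant, or the displacements take two values at a small distance

`Th t` is the frame at the time `t < M`, and `cd Th M t s = ((s - t) / M) (Th s - Th t)` is the
displacement between the times `t` and `s`. If for all `s` in a set `T` the displacements
`cd Th M t s`, `t` in a set `G s` of density at least `3 / 4`, do not contain two values at a
distance in `[2 ^ (-K₂), 2 ^ (-K)]`, then the frame is constant on `T` up to `2 ^ (-u)`.
-/

set_option autoImplicit false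

namespace Pool.KX

open Finset Real

/-- The displacement. -/
noncomputable def cd (Th : ℕ → ℝ) (M t s : ℕ) : ℝ := ((s : ℝ) - t) / M * (Th s - Th t)

/-- The rounded value of the displacement relative to a reference list: classes of values. -/
lemma classes (S : Finset ℕ) (v : ℕ → ℝ) (δ δ₂ : ℝ) (n : ℕ) (hδ : 0 < δ)
    (hn : 4 < n * δ) (hv : ∀ t ∈ S, |v t| ≤ 2)
    (h : ∀ t ∈ S, ∀ s ∈ S, ¬ (δ₂ ≤ |v t - v s| ∧ |v t - v s| ≤ δ)) :
    ∃ j : ℕ → ℕ, (∀ t ∈ S, j t ≤ n) ∧ ∀ t ∈ S, ∀ s ∈ S, j t = j s → |v t - v s| < δ₂ := by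
  classical
  refine ⟨fun t => ⌊(v t + 2) / δ⌋₊, ?_, ?_⟩
  · intro t ht
    have h1 := abs_le.mp (hv t ht)
    have h3 : (v t + 2) / δ < n + 1 := by
      rw [div_lt_iff₀ hδ]
      nlinarith only [hδ, hn, h1]
    have h4 : ⌊(v t + 2) / δ⌋₊ < n + 1 := by
      rw [Nat.floor_lt (by
        have : 0 ≤ v t + 2 := by linarith only [h1]
        positivity)]
      push_cast
      exact h3
    exact Nat.lt_succ_iff.mp h4
  · intro t ht s hs hj
    by_contra hlt
    push Not at hlt
    refine h t ht s hs ⟨hlt, ?_⟩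
    have p1 : 0 ≤ (v t + 2) / δ := div_nonneg (by linarith only [hv, ht, (abs_le.mp (hv t ht)).1]) hδ.le
    have p2 : 0 ≤ (v s + 2) / δ := div_nonneg (by linarith only [hv, hs, (abs_le.mp (hv s hs)).1]) hδ.le
    have a1 := Nat.floor_le p1
    have a2 := Nat.lt_floor_add_one ((v t + 2) / δ)
    have b1 := Nat.floor_le p2
    have b2 := Nat.lt_floor_add_one ((v s + 2) / δ)
    have hj' : (⌊(v t + 2) / δ⌋₊ : ℝ) = (⌊(v s + 2) / δ⌋₊ : ℝ) := by exact_mod_cast hj
    rw [hj'] at a1 a2
    have e : (v t + 2) / δ - (v s + 2) / δ = (v t - v s) / δ := by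
      field_simp
      ring
    have h5 : |(v t - v s) / δ| ≤ 1 := by
      rw [← e, abs_le]
      constructor <;> linarith
    rwa [abs_div, abs_of_pos hδ, div_le_one hδ] at h5

/-- Three points of a set of integers with large gaps. -/
lemma three (E : Finset ℕ) (g : ℕ) (h : 2 * g + 1 ≤ E.card) :
    ∃ a ∈ E, ∃ b ∈ E, ∃ c ∈ E, a + g ≤ b ∧ b + g ≤ c := by
  classical
  have hne : E.Nonempty := Finset.card_pos.mp (by omega)
  set a := E.min' hne with ha
  set c := E.max' hne with hc
  have h1 : ∃ b ∈ E, b ∉ Finset.Ico a (a + g) ∪ Finset.Ioc (c - g) c := by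
    by_contra hcon
    push Not at hcon
    have h2 : E.card ≤ (Finset.Ico a (a + g) ∪ Finset.Ioc (c - g) c).card :=
      Finset.card_le_card fun b hb => hcon b hb
    have h3 := Finset.card_union_le (Finset.Ico a (a + g)) (Finset.Ioc (c - g) c)
    rw [Nat.card_Ico, Nat.card_Ioc] at h3
    omega
  obtain ⟨b, hb, hb2⟩ := h1
  have h4 : a ≤ b := Finset.min'_le E b hb
  have h5 : b ≤ c := Finset.le_max' E b hb
  rw [Finset.mem_union, Finset.mem_Ico, Finset.mem_Ioc, not_or] at hb2
  have h6 : c < g → False := by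
    intro h6
    have h7 : E.card ≤ (Finset.Icc a c).card :=
      Finset.card_le_card fun x hx => Finset.mem_Icc.mpr
        ⟨Finset.min'_le E x hx, Finset.le_max' E x hx⟩
    rw [Nat.card_Icc] at h7
    omega
  refine ⟨a, Finset.min'_mem E hne, b, hb, c, Finset.max'_mem E hne, ?_, ?_⟩
  · by_contra h7
    exact hb2.1 ⟨h4, by omega⟩
  · by_contra h7
    exact hb2.2 ⟨by omega, h5⟩

/-- The leading coefficient of a quadratic polynomial which is small at three separated points. -/
lemma lead (D α β ε g : ℝ) (a b c : ℝ) (hg : 0 < g) (h1 : a + g ≤ b) (h2 : b + g ≤ c)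
    (ha : |D * a ^ 2 + α * a + β| ≤ ε) (hb : |D * b ^ 2 + α * b + β| ≤ ε)
    (hc : |D * c ^ 2 + α * c + β| ≤ ε) : |D| * g ^ 2 ≤ 2 * ε := by
  have e : D * ((b - a) * (c - b) * (c - a)) = (D * c ^ 2 + α * c + β) * (b - a) -
      (D * b ^ 2 + α * b + β) * (c - a) + (D * a ^ 2 + α * a + β) * (c - b) := by ring
  have hab : g ≤ b - a := by linarith only [h1]
  have hbc : g ≤ c - b := by linarith only [h2]
  have hac : 0 < c - a := by linarith only [hg, h1, h2]
  have h3 : |D * ((b - a) * (c - b) * (c - a))| ≤ ε * (b - a) + ε * (c - a) + ε * (c - b) := by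
    rw [e]
    refine (abs_add_le _ _).trans (add_le_add ((abs_sub _ _).trans (add_le_add ?_ ?_)) ?_)
    · rw [abs_mul, abs_of_pos (by linarith only [hg, h1] : 0 < b - a)]
      exact mul_le_mul_of_nonneg_right hc (by linarith only [hg, h1])
    · rw [abs_mul, abs_of_pos hac]
      exact mul_le_mul_of_nonneg_right hb hac.le
    · rw [abs_mul, abs_of_pos (by linarith only [hg, h2] : 0 < c - b)]
      exact mul_le_mul_of_nonneg_right ha (by linarith only [hg, h2])
  have h4 : |D * ((b - a) * (c - b) * (c - a))| = |D| * ((b - a) * (c - b)) * (c - a) := by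
    rw [abs_mul, abs_of_pos (mul_pos (mul_pos (by linarith only [hg, h1]) (by linarith only [hg, h2])) hac), ← mul_assoc]
  rw [h4] at h3
  have h5 : |D| * ((b - a) * (c - b)) * (c - a) ≤ 2 * ε * (c - a) := by linarith only [h3]
  have h6 : |D| * ((b - a) * (c - b)) ≤ 2 * ε := le_of_mul_le_mul_right h5 hac
  refine le_trans ?_ h6
  refine mul_le_mul_of_nonneg_left ?_ (abs_nonneg D)
  rw [sq]
  exact mul_le_mul hab hbc hg.le (by linarith only [hg, h1])

theorem dic_thm (Th : ℕ → ℝ) (M K K₂ u : ℕ) (hM : 2 ^ (2 * K + 9) ≤ M)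
    (hK : 4 * K + 20 + u ≤ K₂) (hTh : ∀ t < M, |Th t| ≤ 1) (T : Finset ℕ) (hT : T ⊆ range M)
    (G : ℕ → Finset ℕ) (hG : ∀ s ∈ T, G s ⊆ range M) (hcard : ∀ s ∈ T, 3 * M ≤ 4 * (G s).card)
    (h : ∀ s ∈ T, ∀ t₁ ∈ G s, ∀ t₂ ∈ G s,
      ¬ (1 / 2 ^ K₂ ≤ |cd Th M t₁ s - cd Th M t₂ s| ∧
        |cd Th M t₁ s - cd Th M t₂ s| ≤ 1 / 2 ^ K)) :
    ∀ s ∈ T, ∀ s' ∈ T, |Th s - Th s'| ≤ 1 / 2 ^ u := by
  classical
  intro s hs s' hs'
  set n : ℕ := 2 ^ (K + 2) + 1 with hn
  have hM0 : (0 : ℝ) < M := by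
    have : 0 < M := lt_of_lt_of_le (by positivity) hM
    exact_mod_cast this
  have hδ : (0 : ℝ) < 1 / 2 ^ K := by positivity
  have hnδ : (4 : ℝ) < n * (1 / 2 ^ K) := by
    rw [mul_one_div, lt_div_iff₀ (by positivity)]
    rw [hn]
    push_cast
    rw [pow_add]
    linarith only
  have hcd : ∀ s ∈ T, ∀ t ∈ G s, |cd Th M t s| ≤ 2 := by
    intro s hs t ht
    have h1 : s < M := Finset.mem_range.mp (hT hs)
    have h2 : t < M := Finset.mem_range.mp (hG s hs ht)
    have h3 : |((s : ℝ) - t) / M| ≤ 1 := by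
      rw [abs_div, abs_of_pos hM0, div_le_one hM0, abs_le]
      have h1' : (s : ℝ) < M := by exact_mod_cast h1
      have h2' : (t : ℝ) < M := by exact_mod_cast h2
      have h4 : (0 : ℝ) ≤ s := Nat.cast_nonneg s
      have h5 : (0 : ℝ) ≤ t := Nat.cast_nonneg t
      constructor <;> linarith
    have h4 : |Th s - Th t| ≤ 2 := by
      refine (abs_sub _ _).trans ?_
      linarith only [hTh, h1, h2, hTh s h1, hTh t h2]
    unfold cd
    rw [abs_mul]
    calc _ ≤ 1 * 2 := mul_le_mul h3 h4 (abs_nonneg _) zero_le_one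
      _ = 2 := by norm_num
  exact by
   obtain ⟨j, hj1, hj2⟩ := classes (G s) (fun t => cd Th M t s) (1 / 2 ^ K) (1 / 2 ^ K₂) n hδ hnδ
     (hcd s hs) (h s hs)
   obtain ⟨j', hj1', hj2'⟩ := classes (G s') (fun t => cd Th M t s') (1 / 2 ^ K) (1 / 2 ^ K₂) n hδ
     hnδ (hcd s' hs') (h s' hs')
   -- a common class
   have hE0 : M ≤ 2 * (G s ∩ G s').card := by
     have h1 := Finset.card_union_add_card_inter (G s) (G s')
     have h2 : (G s ∪ G s').card ≤ M := by
       have := Finset.card_le_card (Finset.union_subset (hG s hs) (hG s' hs'))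
       rwa [Finset.card_range] at this
     have h3 := hcard s hs
     have h4 := hcard s' hs'
     omega
   have hpig : ∃ z ∈ (range (n + 1)) ×ˢ (range (n + 1)),
       (G s ∩ G s').card ≤ (n + 1) ^ 2 * ((G s ∩ G s').filter fun t => (j t, j' t) = z).card := by
     by_contra hcon
     push Not at hcon
     have hmaps : ∀ t ∈ G s ∩ G s', (j t, j' t) ∈ (range (n + 1)) ×ˢ (range (n + 1)) := by
       intro t ht
       rw [Finset.mem_inter] at ht
       rw [Finset.mem_product, Finset.mem_range, Finset.mem_range]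
       exact ⟨Nat.lt_succ_of_le (hj1 t ht.1), Nat.lt_succ_of_le (hj1' t ht.2)⟩
     have h1 := Finset.card_eq_sum_card_fiberwise hmaps
     have h2 : (n + 1) ^ 2 * (G s ∩ G s').card < (n + 1) ^ 2 * (G s ∩ G s').card := by
       calc (n + 1) ^ 2 * (G s ∩ G s').card
           = ∑ z ∈ (range (n + 1)) ×ˢ (range (n + 1)),
             (n + 1) ^ 2 * ((G s ∩ G s').filter fun t => (j t, j' t) = z).card := by
             rw [← Finset.mul_sum, ← h1]
         _ < ∑ _z ∈ (range (n + 1)) ×ˢ (range (n + 1)), (G s ∩ G s').card := by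
             refine Finset.sum_lt_sum_of_nonempty ?_ hcon
             exact ⟨(0, 0), by simp⟩
         _ = (n + 1) ^ 2 * (G s ∩ G s').card := by
             rw [Finset.sum_const, Finset.card_product, Finset.card_range, smul_eq_mul, sq]
     exact lt_irrefl _ h2
   exact by
    obtain ⟨z, _, hz⟩ := hpig
    set E := (G s ∩ G s').filter fun t => (j t, j' t) = z with hE
    have hn8 : (n + 1) ^ 2 ≤ 2 ^ (2 * K + 6) := by
      have h1 : n + 1 ≤ 2 ^ (K + 3) := by
        rw [hn, pow_add 2 K 3, pow_add 2 K 2]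
        have := Nat.one_le_two_pow (n := K)
        omega
      calc (n + 1) ^ 2 ≤ (2 ^ (K + 3)) ^ 2 := Nat.pow_le_pow_left h1 2
        _ = 2 ^ (2 * K + 6) := by rw [← pow_mul]; congr 1; ring
    have hEM : M ≤ 2 ^ (2 * K + 7) * E.card := by
      calc M ≤ 2 * (G s ∩ G s').card := hE0
        _ ≤ 2 * ((n + 1) ^ 2 * E.card) := Nat.mul_le_mul_left 2 hz
        _ ≤ 2 * (2 ^ (2 * K + 6) * E.card) :=
          Nat.mul_le_mul_left 2 (Nat.mul_le_mul_right _ hn8)
        _ = 2 ^ (2 * K + 7) * E.card := by ring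
    have hE4 : 4 ≤ E.card := by
      by_contra hlt
      have h1 : 2 ^ (2 * K + 7) * E.card < 2 ^ (2 * K + 9) := by
        calc 2 ^ (2 * K + 7) * E.card < 2 ^ (2 * K + 7) * 4 :=
              Nat.mul_lt_mul_of_pos_left (by omega) (by positivity)
          _ = 2 ^ (2 * K + 9) := by ring
      omega
    set g : ℕ := (E.card - 1) / 2 with hg
    have hg1 : 2 * g + 1 ≤ E.card := by omega
    have hg2 : E.card ≤ 4 * g := by omega
    obtain ⟨a, ha, b, hb, c, hc, hab, hbc⟩ := three E g hg1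
    have hg0 : (0 : ℝ) < g := by
      have : 0 < g := by omega
      exact_mod_cast this
    -- the polynomial
    exact by
     have hmem : ∀ t ∈ E, t ∈ G s ∧ t ∈ G s' ∧ j t = j a ∧ j' t = j' a := by
       intro t ht
       have h1 := (Finset.mem_filter.mp ht)
       have h2 := (Finset.mem_filter.mp ha)
       have h3 := Finset.mem_inter.mp h1.1
       have h4 := h1.2.trans h2.2.symm
       rw [Prod.mk.injEq] at h4
       exact ⟨h3.1, h3.2, h4.1, h4.2⟩
     set A := cd Th M a s with hA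
     set A' := cd Th M a s' with hA'
     set D := (Th s - Th s') / (M : ℝ) ^ 2 with hD
     have hpol : ∀ t ∈ E, |D * (t : ℝ) ^ 2 + (-D * (s + s') + A / M - A' / M) * t +
         (D * s * s' - A * s' / M + A' * s / M)| ≤ 2 * (1 / 2 ^ K₂) := by
       intro t ht
       obtain ⟨h1, h2, h3, h4⟩ := hmem t ht
       obtain ⟨a1, a2, _, _⟩ := hmem a ha
       have h5 := hj2 t h1 a a1 h3
       have h6 := hj2' t h2 a a2 h4
       have e : D * (t : ℝ) ^ 2 + (-D * (s + s') + A / M - A' / M) * t +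
           (D * s * s' - A * s' / M + A' * s / M) =
           ((s' : ℝ) - t) / M * (cd Th M t s - A) - ((s : ℝ) - t) / M * (cd Th M t s' - A') := by
         rw [hD]
         unfold cd
         field_simp
         ring
       rw [e]
       have h7 : ∀ x : ℕ, x < M → |((x : ℝ) - t) / M| ≤ 1 := by
         intro x hx
         have ht' : t < M := Finset.mem_range.mp (hG s hs h1)
         rw [abs_div, abs_of_pos hM0, div_le_one hM0, abs_le]
         have h1' : (x : ℝ) < M := by exact_mod_cast hx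
         have h2' : (t : ℝ) < M := by exact_mod_cast ht'
         have h4 : (0 : ℝ) ≤ x := Nat.cast_nonneg x
         have h5 : (0 : ℝ) ≤ t := Nat.cast_nonneg t
         constructor <;> linarith
       refine (abs_sub _ _).trans ?_
       rw [abs_mul, abs_mul]
       have h8 := mul_le_mul (h7 s' (Finset.mem_range.mp (hT hs'))) h5.le (abs_nonneg _) zero_le_one
       have h9 := mul_le_mul (h7 s (Finset.mem_range.mp (hT hs))) h6.le (abs_nonneg _) zero_le_one
       linarith only [h8, h9]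
     exact by
      have hlead := lead D (-D * (s + s') + A / M - A' / M) (D * s * s' - A * s' / M + A' * s / M)
        (2 * (1 / 2 ^ K₂)) g a b c hg0 (by exact_mod_cast hab) (by exact_mod_cast hbc)
        (hpol a ha) (hpol b hb) (hpol c hc)
      -- conclusion
      have hgM : (M : ℝ) ≤ 2 ^ (2 * K + 9) * g := by
        have h1 : M ≤ 2 ^ (2 * K + 7) * (4 * g) := hEM.trans (Nat.mul_le_mul_left _ hg2)
        have h2 : (M : ℝ) ≤ 2 ^ (2 * K + 7) * (4 * g) := by exact_mod_cast h1
        calc (M : ℝ) ≤ 2 ^ (2 * K + 7) * (4 * g) := h2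
          _ = 2 ^ (2 * K + 9) * g := by ring
      have h1 : |Th s - Th s'| * (g : ℝ) ^ 2 ≤ 4 * (1 / 2 ^ K₂) * (M : ℝ) ^ 2 := by
        rw [hD, abs_div, abs_of_pos (by positivity : (0 : ℝ) < (M : ℝ) ^ 2)] at hlead
        rw [div_mul_eq_mul_div, div_le_iff₀ (by positivity)] at hlead
        linarith only [hlead]
      have h2 : (M : ℝ) ^ 2 ≤ (2 ^ (2 * K + 9) * g) ^ 2 :=
        pow_le_pow_left₀ hM0.le hgM 2
      have h3 : |Th s - Th s'| * (g : ℝ) ^ 2 ≤ (4 * (1 / 2 ^ K₂) * (2 ^ (2 * K + 9)) ^ 2) *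
          (g : ℝ) ^ 2 := by
        refine h1.trans ?_
        calc 4 * (1 / 2 ^ K₂) * (M : ℝ) ^ 2 ≤ 4 * (1 / 2 ^ K₂) * (2 ^ (2 * K + 9) * g) ^ 2 :=
              mul_le_mul_of_nonneg_left h2 (by positivity)
          _ = _ := by ring
      have h4 : |Th s - Th s'| ≤ 4 * (1 / 2 ^ K₂) * (2 ^ (2 * K + 9)) ^ 2 :=
        le_of_mul_le_mul_right h3 (by positivity)
      refine h4.trans ?_
      have h5 : (4 : ℝ) * (1 / 2 ^ K₂) * (2 ^ (2 * K + 9)) ^ 2 = 2 ^ (4 * K + 20) / 2 ^ K₂ := by
        rw [← pow_mul]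
        have e : (2 : ℝ) ^ (4 * K + 20) = 4 * 2 ^ ((2 * K + 9) * 2) := by
          rw [show 4 * K + 20 = 2 + (2 * K + 9) * 2 by ring, pow_add]
          norm_num
        rw [e]
        ring
      exact by
       rw [h5, div_le_div_iff₀ (by positivity) (by positivity), one_mul, ← pow_add]
       exact pow_le_pow_right₀ (by norm_num) hK

end Pool.KX
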