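import Pool.Agent.H70.KAL.TI
import Pool.Agent.H87.KX.DIC

/-!
# The unified translation lemma

One context. `Nh s` is the (smoothed) normal coordinate at the time `s`, in units `2 ^ (-L)` of the
block, `V s` other information at the time `s`, `Th` the frame. The joint law of `(Nh s, V s)` is
nearly invariant under the translations `2 ^ L (cd Th M t s) d` for many `t`. Then either the frame
is constant on the set `T` of base times up to `2 ^ (-u)`, or the first `K` rows of the block are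
full at some base time.
-/

set_option autoImplicit false

namespace Pool.KX

open Finset Real
open Pool.Agent.H49.Ent Pool.Agent.H32.Dense Pool.STK Pool.KAL

/-- The integer quotients by a power of two. -/
lemma ent_quot {Ω T : Type} [Fintype Ω] {p : Ω → ℝ} (hp : IsLaw p) (X : Ω → ℤ) (W : Ω → T)
    (a r : ℕ) (hW : Det p W (fun ω => X ω / ((2 ^ (a + r) : ℕ) : ℤ))) :
    CH p (fun ω => X ω / ((2 ^ a : ℕ) : ℤ)) W ≤ r * Real.log 2 + Real.log 3 := by
  have h1 := CH_le_int hp.nonneg hp.sum_one (fun ω => X ω / ((2 ^ a : ℕ) : ℤ)) W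
    (fun _ => 2 ^ r) (by
    intro ω ω' h h' e
    have h2 := hW ω ω' h h' e
    simp only at h2
    have hpow : ((2 ^ (a + r) : ℕ) : ℤ) = ((2 ^ a : ℕ) : ℤ) * ((2 ^ r : ℕ) : ℤ) := by
      rw [pow_add]; push_cast; ring
    rw [hpow, ← Int.ediv_ediv_of_nonneg (by positivity), ← Int.ediv_ediv_of_nonneg (by positivity)]
      at h2
    set A := X ω / ((2 ^ a : ℕ) : ℤ)
    set A' := X ω' / ((2 ^ a : ℕ) : ℤ)
    have hr : (0 : ℤ) < ((2 ^ r : ℕ) : ℤ) := by positivity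
    have e1 := Int.emod_add_mul_ediv A ((2 ^ r : ℕ) : ℤ)
    have e2 := Int.emod_add_mul_ediv A' ((2 ^ r : ℕ) : ℤ)
    have b1 := Int.emod_nonneg A hr.ne'
    have b2 := Int.emod_nonneg A' hr.ne'
    have c1 := Int.emod_lt_of_pos A hr
    have c2 := Int.emod_lt_of_pos A' hr
    rw [h2] at e1
    have h3 : |A - A'| ≤ ((2 ^ r : ℕ) : ℤ) := by
      rw [abs_le]
      constructor <;> linarith
    have h4 : (|A - A'| : ℤ) ≤ (2 : ℤ) ^ r := by
      refine h3.trans (le_of_eq ?_)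
      push_cast
      rfl
    calc |((A - A' : ℤ) : ℝ)| = ((|A - A'| : ℤ) : ℝ) := by push_cast; rfl
      _ ≤ (((2 : ℤ) ^ r : ℤ) : ℝ) := by exact_mod_cast h4
      _ = 2 ^ r := by push_cast; rfl)
  rw [Ex_const hp.sum_one] at h1
  refine h1.trans ?_
  have h2 : (1 : ℝ) ≤ 2 ^ r := one_le_pow₀ (by norm_num)
  have h3 : (2 : ℝ) * 2 ^ r + 1 ≤ 2 ^ r * 3 := by linarith
  refine (Real.log_le_log (by positivity) h3).trans ?_
  rw [Real.log_mul (by positivity) (by norm_num), Real.log_pow]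

/-- One small translation which almost fixes the law makes the rows of the block full. -/
lemma full_of_tiv {Ω U : Type} [Fintype Ω] {p : Ω → ℝ} (hp : IsLaw p) (X : Ω → ℤ) (V : Ω → U)
    (κ L β : ℕ) (x : ℤ) (e : ℝ) (hκ : κ ≤ L) (h1 : (2 : ℤ) ^ β ≤ |x|)
    (h2 : |x| ≤ 2 ^ κ) (he : 0 ≤ e) (he2 : 9 * 4 ^ (L - β) * e ≤ 1) (hT : TIV p X V x e) :
    ((L : ℝ) - κ) * Real.log 2 - 5 ≤ CH p (fun ω => X ω / ((2 ^ κ : ℕ) : ℤ))
      (fun ω => (X ω / ((2 ^ L : ℕ) : ℤ), V ω)) := by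
  classical
  -- a positive translation
  set n : ℕ := x.natAbs with hn
  have hnx : (n : ℤ) = |x| := Int.natCast_natAbs x
  have hTn : TIV p X V ((n : ℕ) : ℤ) e := by
    rw [hnx]
    rcases abs_choice x with hx | hx
    · rw [hx]; exact hT
    · rw [hx]; exact (ti2_thm Ω U ℤ p X V x x e e hT hT).2.1
  have hn1 : 2 ^ β ≤ n := by
    have : ((2 ^ β : ℕ) : ℤ) ≤ (n : ℤ) := by rw [hnx]; push_cast; exact h1
    exact_mod_cast this
  have hn2 : n ≤ 2 ^ κ := by
    have : (n : ℤ) ≤ ((2 ^ κ : ℕ) : ℤ) := by rw [hnx]; push_cast; exact h2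
    exact_mod_cast this
  have hn0 : 0 < n := lt_of_lt_of_le (by positivity) hn1
  -- the row of the translation
  set α : ℕ := Nat.log 2 n with hα
  have ha1 : 2 ^ α ≤ n := Nat.pow_log_le_self 2 hn0.ne'
  have ha2 : n < 2 ^ (α + 1) := Nat.lt_pow_succ_log_self (by norm_num) n
  have hακ : α ≤ κ := by
    by_contra hlt
    push Not at hlt
    have h3 : 2 ^ κ < 2 ^ α := Nat.pow_lt_pow_right (by norm_num) hlt
    omega
  have hαL : α ≤ L := hακ.trans hκ
  have hβL : β ≤ L := by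
    by_contra hlt
    push Not at hlt
    have h3 : 2 ^ L < 2 ^ β := Nat.pow_lt_pow_right (by norm_num) hlt
    have h4 : 2 ^ κ ≤ 2 ^ L := Nat.pow_le_pow_right (by norm_num) hκ
    omega
  set M : ℕ := 2 * 2 ^ L / n + 1 with hM
  have hnL : n ≤ 2 ^ L := hn2.trans (Nat.pow_le_pow_right (by norm_num) hκ)
  have hM1 : M * n ≤ 2 * 2 ^ L + n := by
    rw [hM, Nat.add_mul, one_mul]
    exact Nat.add_le_add_right (Nat.div_mul_le_self _ _) _
  have hM2 : 2 ≤ M := by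
    have h3 : 1 ≤ 2 * 2 ^ L / n := by
      rw [Nat.le_div_iff_mul_le hn0]
      omega
    omega
  have h3 := ti3_thm Ω U p X V (2 ^ α) (2 ^ L) n M e hp (by positivity)
    (pow_dvd_pow 2 hαL) (by positivity) ha1 hM1 hM2 he hTn
  -- bounds for `M`
  have hn0' : (0 : ℝ) < n := by exact_mod_cast hn0
  have hMlow : (2 : ℝ) ^ (L - α) ≤ M := by
    have h4 : (2 : ℝ) * 2 ^ L / n < M := by
      have h5 := Nat.lt_div_mul_add (a := 2 * 2 ^ L) hn0
      have h6 : 2 * 2 ^ L < M * n := by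
        rw [hM, Nat.add_mul, one_mul]
        exact h5
      rw [div_lt_iff₀ hn0']
      exact_mod_cast h6
    refine le_trans ?_ h4.le
    rw [le_div_iff₀ hn0']
    have h5 : (n : ℝ) ≤ 2 ^ (α + 1) := by exact_mod_cast ha2.le
    calc (2 : ℝ) ^ (L - α) * n ≤ 2 ^ (L - α) * 2 ^ (α + 1) :=
          mul_le_mul_of_nonneg_left h5 (by positivity)
      _ = 2 * 2 ^ L := by
          rw [← pow_add, ← pow_succ']
          congr 1
          omega
  have hMupp : (M : ℝ) ≤ 3 * 2 ^ (L - β) := by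
    have h4 : (M : ℝ) * n ≤ 3 * 2 ^ L := by
      have h5 : M * n ≤ 3 * 2 ^ L := by omega
      exact_mod_cast h5
    have h5 : (2 : ℝ) ^ β ≤ n := by exact_mod_cast hn1
    have h6 : (M : ℝ) * 2 ^ β ≤ 3 * 2 ^ (L - β) * 2 ^ β := by
      calc (M : ℝ) * 2 ^ β ≤ M * n := mul_le_mul_of_nonneg_left h5 (Nat.cast_nonneg M)
        _ ≤ 3 * 2 ^ L := h4
        _ = 3 * 2 ^ (L - β) * 2 ^ β := by
            rw [mul_assoc, ← pow_add]
            congr 2
            omega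
    exact le_of_mul_le_mul_right h6 (by positivity)
  have hMpos : (0 : ℝ) < M := by
    have : 0 < M := by omega
    exact_mod_cast this
  have hlog : Real.log ((M : ℝ) / 2) ≤ M / 2 := by
    have h4 := Real.log_le_sub_one_of_pos (x := (M : ℝ) / 2) (by positivity)
    linarith
  have herr : 2 * ((M : ℝ) * e) * Real.log (M / 2) ≤ 1 := by
    calc 2 * ((M : ℝ) * e) * Real.log (M / 2) ≤ 2 * ((M : ℝ) * e) * (M / 2) :=
          mul_le_mul_of_nonneg_left hlog (by positivity)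
      _ = (M : ℝ) ^ 2 * e := by ring
      _ ≤ (3 * 2 ^ (L - β)) ^ 2 * e :=
          mul_le_mul_of_nonneg_right (pow_le_pow_left₀ hMpos.le hMupp 2) he
      _ = 9 * 4 ^ (L - β) * e := by
          rw [mul_pow, ← pow_mul, mul_comm (L - β) 2, pow_mul]
          norm_num
      _ ≤ 1 := he2
  have hlow : ((L : ℝ) - α - 1) * Real.log 2 ≤ Real.log (M / 2) := by
    have h4 : Real.log ((2 : ℝ) ^ (L - α) / 2) ≤ Real.log (M / 2) :=
      Real.log_le_log (by positivity) (by linarith)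
    rw [Real.log_div (by positivity) (by norm_num), Real.log_pow, Nat.cast_sub hαL] at h4
    linarith
  have h4 : ((L : ℝ) - α - 1) * Real.log 2 - 3 ≤ CH p (fun ω => X ω / ((2 ^ α : ℕ) : ℤ))
      (fun ω => (X ω / ((2 ^ L : ℕ) : ℤ), V ω)) := by
    refine le_trans ?_ h3
    have : (1 - 2 * ((M : ℝ) * e)) * Real.log (M / 2) - 2 =
        Real.log (M / 2) - 2 * ((M : ℝ) * e) * Real.log (M / 2) - 2 := by ring
    rw [this]
    linarith
  -- from the row of the translation to the row `κ`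
  set W : Ω → ℤ × U := fun ω => (X ω / ((2 ^ L : ℕ) : ℤ), V ω) with hW
  have h5 := CH_le_add hp.nonneg (fun ω => X ω / ((2 ^ α : ℕ) : ℤ))
    (fun ω => X ω / ((2 ^ κ : ℕ) : ℤ)) W
  have h6 := ent_quot hp X (fun ω => (X ω / ((2 ^ κ : ℕ) : ℤ), W ω)) α (κ - α) (by
    intro ω ω' _ _ h
    have h7 := (Prod.ext_iff.mp h).1
    rwa [show α + (κ - α) = κ by omega])
  rw [Nat.cast_sub hακ] at h6
  have h7 : Real.log 3 + Real.log 2 ≤ 2 := by
    have e1 := Real.log_two_lt_d9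
    have e2 : Real.log 3 ≤ 1.3 := by
      have h8 : Real.log 3 ≤ Real.log 4 := Real.log_le_log (by norm_num) (by norm_num)
      have h9 : Real.log 4 = 2 * Real.log 2 := by
        rw [show (4 : ℝ) = 2 ^ 2 by norm_num, Real.log_pow]
        norm_num
      have h10 : Real.log 3 = Real.log 2 + Real.log (3 / 2) := by
        rw [← Real.log_mul (by norm_num) (by norm_num)]
        norm_num
      have h11 := Real.log_le_sub_one_of_pos (x := (3 : ℝ) / 2) (by norm_num)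
      linarith
    linarith
  linarith

/-- **The unified translation lemma** at one context. -/
theorem utl_thm (Ω U : Type) [Fintype Ω] (p : Ω → ℝ) (hp : IsLaw p) (Nh : ℕ → Ω → ℤ)
    (V : ℕ → Ω → U) (Th : ℕ → ℝ) (M K K₂ u u₀ L : ℕ) (d e : ℝ) (x : ℕ → ℕ → ℤ)
    (hM : 2 ^ (2 * K + 11) ≤ M) (hK : 4 * K + 24 + u ≤ K₂) (hL : K₂ + u₀ + 2 ≤ L)
    (hd : 1 / 2 ^ u₀ ≤ |d|) (hd1 : |d| ≤ 1) (he : 0 ≤ e)
    (he2 : 18 * 4 ^ (K₂ + u₀ + 1) * e ≤ 1) (hTh : ∀ t < M, |Th t| ≤ 1)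
    (T : Finset ℕ) (hT : T ⊆ range M) (G : ℕ → Finset ℕ) (hG : ∀ s ∈ T, G s ⊆ range M)
    (hcard : ∀ s ∈ T, 3 * M ≤ 4 * (G s).card)
    (hx : ∀ s ∈ T, ∀ t ∈ G s, |(x t s : ℝ) - 2 ^ L * cd Th M t s * d| ≤ 1)
    (hinv : ∀ s ∈ T, ∀ t ∈ G s, TIV p (Nh s) (V s) (x t s) e) :
    (∀ s ∈ T, ∀ s' ∈ T, |Th s - Th s'| ≤ 1 / 2 ^ u) ∨
    ∃ s ∈ T, K * Real.log 2 - 5 ≤ CH p (fun ω => Nh s ω / ((2 ^ (L - K) : ℕ) : ℤ))
      (fun ω => (Nh s ω / ((2 ^ L : ℕ) : ℤ), V s ω)) := by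
  classical
  by_cases hex : ∃ s ∈ T, ∃ t₁ ∈ G s, ∃ t₂ ∈ G s,
      1 / 2 ^ K₂ ≤ |cd Th M t₁ s - cd Th M t₂ s| ∧
        |cd Th M t₁ s - cd Th M t₂ s| ≤ 1 / 2 ^ (K + 1)
  · right
    obtain ⟨s, hs, t₁, ht₁, t₂, ht₂, hlow, hupp⟩ := hex
    refine ⟨s, hs, ?_⟩
    set y : ℤ := x t₁ s - x t₂ s with hy
    set c : ℝ := cd Th M t₁ s - cd Th M t₂ s with hc
    have hyc : |(y : ℝ) - 2 ^ L * c * d| ≤ 2 := by
      have h1 := hx s hs t₁ ht₁
      have h2 := hx s hs t₂ ht₂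
      have e1 : (y : ℝ) - 2 ^ L * c * d = ((x t₁ s : ℝ) - 2 ^ L * cd Th M t₁ s * d) -
          ((x t₂ s : ℝ) - 2 ^ L * cd Th M t₂ s * d) := by
        rw [hy, hc]
        push_cast
        ring
      rw [e1]
      refine (abs_sub _ _).trans ?_
      linarith
    have hTy : TIV p (Nh s) (V s) y (2 * e) := by
      have h1 := hinv s hs t₁ ht₁
      have h2 := (ti2_thm Ω U ℤ p (Nh s) (V s) (x t₂ s) (x t₂ s) e e (hinv s hs t₂ ht₂)
        (hinv s hs t₂ ht₂)).2.1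
      have h3 := (ti2_thm Ω U ℤ p (Nh s) (V s) (x t₁ s) (-(x t₂ s)) e e h1 h2).1
      rw [← sub_eq_add_neg] at h3
      rw [two_mul]
      exact h3
    have hcd : |2 ^ L * c * d| = 2 ^ L * |c| * |d| := by
      rw [abs_mul, abs_mul, abs_of_pos (by positivity : (0 : ℝ) < 2 ^ L)]
    have hylow : (2 : ℤ) ^ (L - K₂ - u₀ - 1) ≤ |y| := by
      have h1 : (2 : ℝ) ^ (L - K₂ - u₀) ≤ 2 ^ L * |c| * |d| := by
        have h2 : (1 : ℝ) / 2 ^ K₂ * (1 / 2 ^ u₀) ≤ |c| * |d| :=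
          mul_le_mul hlow hd (by positivity) (abs_nonneg _)
        have h3 : (2 : ℝ) ^ (L - K₂ - u₀) = 2 ^ L * (1 / 2 ^ K₂ * (1 / 2 ^ u₀)) := by
          have h4 : (2 : ℝ) ^ L = 2 ^ (L - K₂ - u₀) * (2 ^ K₂ * 2 ^ u₀) := by
            rw [← pow_add, ← pow_add]
            congr 1
            omega
          rw [h4]
          field_simp
        rw [h3, mul_assoc]
        exact mul_le_mul_of_nonneg_left h2 (by positivity)
      have h5 : (2 : ℝ) ^ (L - K₂ - u₀) - 2 ≤ |(y : ℝ)| := by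
        have h6 := abs_sub_abs_le_abs_sub (2 ^ L * c * d) (y : ℝ)
        rw [abs_sub_comm (2 ^ L * c * d) (y : ℝ)] at h6
        rw [hcd] at h6
        linarith
      have h7 : (2 : ℝ) ^ (L - K₂ - u₀ - 1) ≤ |(y : ℝ)| := by
        have h8 : (2 : ℝ) ^ (L - K₂ - u₀) = 2 * 2 ^ (L - K₂ - u₀ - 1) := by
          rw [← pow_succ']
          congr 1
          omega
        have h9 : (2 : ℝ) ≤ 2 ^ (L - K₂ - u₀ - 1) := by
          calc (2 : ℝ) = 2 ^ 1 := by norm_num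
            _ ≤ 2 ^ (L - K₂ - u₀ - 1) := pow_le_pow_right₀ (by norm_num) (by omega)
        linarith
      have h10 : (((2 : ℤ) ^ (L - K₂ - u₀ - 1) : ℤ) : ℝ) ≤ ((|y| : ℤ) : ℝ) := by
        push_cast
        exact h7
      exact_mod_cast h10
    have hyupp : |y| ≤ (2 : ℤ) ^ (L - K) := by
      have h1 : 2 ^ L * |c| * |d| ≤ 2 ^ (L - K - 1) := by
        have h2 : |c| * |d| ≤ 1 / 2 ^ (K + 1) := by
          calc |c| * |d| ≤ 1 / 2 ^ (K + 1) * 1 :=
                mul_le_mul hupp hd1 (abs_nonneg _) (by positivity)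
            _ = 1 / 2 ^ (K + 1) := mul_one _
        have h3 : (2 : ℝ) ^ (L - K - 1) = 2 ^ L * (1 / 2 ^ (K + 1)) := by
          have h4 : (2 : ℝ) ^ L = 2 ^ (L - K - 1) * 2 ^ (K + 1) := by
            rw [← pow_add]
            congr 1
            omega
          rw [h4]
          field_simp
        rw [h3, mul_assoc]
        exact mul_le_mul_of_nonneg_left h2 (by positivity)
      have h5 : |(y : ℝ)| ≤ 2 ^ (L - K - 1) + 2 := by
        have h6 := abs_sub_abs_le_abs_sub (y : ℝ) (2 ^ L * c * d)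
        rw [hcd] at h6
        linarith
      have h8 : (2 : ℝ) ^ (L - K) = 2 * 2 ^ (L - K - 1) := by
        rw [← pow_succ']
        congr 1
        omega
      have h9 : (2 : ℝ) ≤ 2 ^ (L - K - 1) := by
        calc (2 : ℝ) = 2 ^ 1 := by norm_num
          _ ≤ 2 ^ (L - K - 1) := pow_le_pow_right₀ (by norm_num) (by omega)
      have h10 : ((|y| : ℤ) : ℝ) ≤ (((2 : ℤ) ^ (L - K) : ℤ) : ℝ) := by
        push_cast
        linarith
      exact_mod_cast h10
    have h1 := full_of_tiv hp (Nh s) (V s) (L - K) L (L - K₂ - u₀ - 1) y (2 * e) (Nat.sub_le L K)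
      hylow hyupp (by positivity) (by
        rw [show L - (L - K₂ - u₀ - 1) = K₂ + u₀ + 1 by omega]
        linarith) hTy
    rw [Nat.cast_sub (by omega : K ≤ L)] at h1
    have e1 : ((L : ℝ) - (L - K)) * Real.log 2 - 5 = K * Real.log 2 - 5 := by ring
    rw [e1] at h1
    exact h1
  · left
    push Not at hex
    refine dic_thm Th M (K + 1) K₂ u (by rw [show 2 * (K + 1) + 9 = 2 * K + 11 by ring]; exact hM)
      (by omega) hTh T hT G hG hcard ?_
    intro s hs t₁ h₁ t₂ h₂ hh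
    exact absurd hh.2 (not_le.mpr (hex s hs t₁ h₁ t₂ h₂ hh.1))

end Pool.KX
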