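import Pool.Agent.H86.LJ.LJC

/-!
# One mate step, seen from a random base time

`T1` is the time of the step, `R` the change of the velocity, `T2` the base time. The position at
the base time changes by `(T2 - T1) R`. For two steps the difference of the changes is an affine
function of `T2` which is large somewhere, so it is small only for few `T2`. Hence the position at
the base time is spread, whatever the dependence of `R` on `T1` is.
-/

set_option autoImplicit false

namespace Pool.KX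

open Finset Real
open Pool.Agent.H49.Ent Pool.Agent.H32.Dense Pool.STK Pool.KAF Pool.KAL Pool.LJ

/-- Two steps `z`, `z'` lead to the same position at the common base time `t`. -/
def mnr (δ : ℝ) (M : ℕ) (z : ℤ × ℝ) (t : ℤ) (z' : ℤ × ℝ) (t' : ℤ) : Prop :=
  (δ ≤ |z.2| ∧ δ ≤ |z'.2| ∧ |(t : ℝ) - z.1| ≤ M ∧ |(t : ℝ) - z'.1| ≤ M) ∧
  (t = t' ∧ |((t : ℝ) - z.1) * z.2 - ((t : ℝ) - z'.1) * z'.2| ≤ 128)

open Classical in
theorem mnr_count {δ : ℝ} (hδ : 0 < δ) (hδ1 : δ ≤ 1) {M : ℕ} (hM : 1 ≤ M) {A : ℤ} {N : ℕ}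
    (hNM : N ≤ M) (z z' : ℤ × ℝ) :
    ∑ t ∈ Finset.Ico A (A + (N : ℤ)), ∑ t' ∈ Finset.Ico A (A + (N : ℤ)),
      (if mnr δ M z t z' t' then (1 : ℝ) else 0) ≤
      1026 * M / δ * (1 / max |(z.1 : ℝ) - z'.1| 1) := by
  set S := Finset.Ico A (A + (N : ℤ)) with hS
  set F := S.filter fun t => mnr δ M z t z' t with hF
  have hM1 : (1 : ℝ) ≤ M := by exact_mod_cast hM
  have e1 : ∑ t ∈ S, ∑ t' ∈ S, (if mnr δ M z t z' t' then (1 : ℝ) else 0) ≤ (F.card : ℝ) := by
    have h1 : (F.card : ℝ) = ∑ t ∈ S, (if mnr δ M z t z' t then (1 : ℝ) else 0) := by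
      rw [Finset.sum_ite, Finset.sum_const_zero, add_zero, Finset.sum_const, nsmul_eq_mul, mul_one]
    rw [h1]
    refine Finset.sum_le_sum fun t ht => ?_
    have h2 : ∀ t' ∈ S, (if mnr δ M z t z' t' then (1 : ℝ) else 0) =
        if t = t' then (if mnr δ M z t z' t then (1 : ℝ) else 0) else 0 := by
      intro t' _
      by_cases h : t = t'
      · subst h
        simp
      · rw [if_neg h, if_neg]
        exact fun hn => h hn.2.1
    rw [Finset.sum_congr rfl h2, Finset.sum_ite_eq, if_pos ht]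
  refine e1.trans ?_
  set κ : ℝ := |(z.1 : ℝ) - z'.1| with hκ
  have hκ0 : 0 ≤ κ := abs_nonneg _
  have hmax : 0 < max κ 1 := lt_of_lt_of_le one_pos (le_max_right _ _)
  rw [mul_one_div, le_div_iff₀ hmax]
  rcases F.eq_empty_or_nonempty with h0 | ⟨t₀, ht₀⟩
  · rw [h0, Finset.card_empty, Nat.cast_zero, zero_mul]
    positivity
  have hm : ∀ t ∈ F, (δ ≤ |z.2| ∧ δ ≤ |z'.2| ∧ |(t : ℝ) - z.1| ≤ M ∧ |(t : ℝ) - z'.1| ≤ M) ∧
      |((t : ℝ) - z.1) * z.2 - ((t : ℝ) - z'.1) * z'.2| ≤ 128 := fun t ht => by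
    have h := (Finset.mem_filter.mp ht).2
    exact ⟨h.1, h.2.2⟩
  obtain ⟨⟨hz, hz', h1, h2⟩, h3⟩ := hm t₀ ht₀
  rcases le_or_gt (κ * δ) 256 with hsm | hla
  · -- the trivial bound
    have hc : (F.card : ℝ) ≤ M := by
      have h4 : F.card ≤ N := by
        refine (Finset.card_filter_le _ _).trans ?_
        rw [hS, Int.card_Ico, add_sub_cancel_left, Int.toNat_natCast]
      exact_mod_cast h4.trans hNM
    have h4 : max κ 1 ≤ 256 / δ := by
      refine max_le ?_ ?_
      · rwa [le_div_iff₀ hδ]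
      · rw [le_div_iff₀ hδ]
        linarith
    calc (F.card : ℝ) * max κ 1 ≤ M * (256 / δ) :=
          mul_le_mul hc h4 hmax.le (by positivity)
      _ ≤ 1026 * M / δ := by
          rw [mul_div_assoc', div_le_div_iff_of_pos_right hδ]
          nlinarith
  · -- the slopes are different
    have hκ1 : 1 ≤ κ := by
      have h4 : (256 : ℝ) < κ := lt_of_lt_of_le hla (by nlinarith)
      linarith
    set r : ℝ := |z.2 - z'.2| with hr
    have hr1 : κ * δ ≤ 128 + M * r := by
      have e2 : ((z.1 : ℝ) - z'.1) * z'.2 = -(((t₀ : ℝ) - z.1) * z.2 -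
          ((t₀ : ℝ) - z'.1) * z'.2) + ((t₀ : ℝ) - z.1) * (z.2 - z'.2) := by ring
      have h4 : κ * δ ≤ |((z.1 : ℝ) - z'.1) * z'.2| := by
        rw [abs_mul]
        exact mul_le_mul_of_nonneg_left hz' hκ0
      refine h4.trans ?_
      rw [e2]
      refine (abs_add_le _ _).trans (add_le_add ?_ ?_)
      · rw [abs_neg]
        exact h3
      · rw [abs_mul]
        exact mul_le_mul_of_nonneg_right h1 (abs_nonneg _)
    have hr2 : κ * δ / (2 * M) ≤ r := by
      rw [div_le_iff₀ (by positivity)]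
      nlinarith
    have hrpos : 0 < r := lt_of_lt_of_le (by positivity) hr2
    have hc := card_closeZ (t₀ : ℝ) (256 / r) (by positivity) F (fun t ht => by
      obtain ⟨_, h5⟩ := hm t ht
      rw [le_div_iff₀ hrpos, hr, ← abs_mul]
      have e3 : ((t : ℝ) - t₀) * (z.2 - z'.2) = (((t : ℝ) - z.1) * z.2 -
          ((t : ℝ) - z'.1) * z'.2) - (((t₀ : ℝ) - z.1) * z.2 -
          ((t₀ : ℝ) - z'.1) * z'.2) := by ring
      rw [e3]
      refine (abs_sub _ _).trans ?_
      linarith)
    rw [max_eq_left hκ1]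
    have hκM : κ ≤ 2 * M := by
      have e4 : (z.1 : ℝ) - z'.1 = ((t₀ : ℝ) - z'.1) - ((t₀ : ℝ) - z.1) := by ring
      rw [hκ, e4]
      refine (abs_sub _ _).trans ?_
      linarith
    have h6 : 256 / r ≤ 512 * M / (κ * δ) := by
      rw [div_le_div_iff₀ hrpos (by positivity)]
      have := (div_le_iff₀ (by positivity : (0 : ℝ) < 2 * M)).mp hr2
      nlinarith
    calc (F.card : ℝ) * κ ≤ (2 * (256 / r) + 1) * κ := by gcongr
      _ ≤ (2 * (512 * M / (κ * δ)) + 1) * κ := by gcongr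
      _ = 1024 * M / δ + κ := by
          field_simp
          ring
      _ ≤ 1026 * M / δ := by
          have h7 : 2 * (M : ℝ) ≤ 2 * M / δ := by
            rw [le_div_iff₀ hδ]
            nlinarith
          have h8 : 1026 * (M : ℝ) / δ = 1024 * M / δ + 2 * M / δ := by ring
          rw [h8]
          linarith

section core

variable {W : Type} [Fintype W] {q : W → ℝ}

open Classical in
/-- One value of the context. -/
theorem mar_core {T1 T2 x : W → ℤ} {R : W → ℝ} {x0 : ℤ → ℝ} {A1 A2 : ℤ} {M N : ℕ} {δ : ℝ}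
    (hq : IsLaw q) (hN : 1 ≤ N) (hNM : N ≤ M) (hδ : 0 < δ) (hδ1 : δ ≤ 1)
    (hT : ∀ w, 0 < q w → A1 ≤ T1 w ∧ T1 w < A1 + N ∧ A2 ≤ T2 w ∧ T2 w < A2 + N ∧
      |(T2 w : ℝ) - T1 w| ≤ M)
    (hR : ∀ w, 0 < q w → δ ≤ |R w|)
    (hx : ∀ w, 0 < q w →
      |(x w : ℝ) - (x0 (T2 w) + ((T2 w : ℝ) - T1 w) * R w)| ≤ 64) :
    2 * Real.log N - Real.log M - Real.log (4104 * (1 + Real.log M) / δ) -
      2 * (2 * Real.log N - H q T1 - H q (fun v => ((T1 v, R v), T2 v)) +
        H q (fun v => (T1 v, R v))) - 3 ≤ CH q x T2 := by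
  have hN' : (0 : ℝ) < N := by exact_mod_cast hN
  have hM : 1 ≤ M := hN.trans hNM
  have hM' : (0 : ℝ) < M := by exact_mod_cast hM
  have hlM : 0 ≤ Real.log M := Real.log_nonneg (by exact_mod_cast hM)
  set E : ℝ := 4104 * M * (1 + Real.log M) / (δ * N ^ 3) with hE
  have hEpos : 0 < E := by positivity
  have hS1 : ∀ w, 0 < q w → T1 w ∈ Finset.Ico A1 (A1 + (N : ℤ)) := fun w h =>
    Finset.mem_Ico.mpr ⟨(hT w h).1, (hT w h).2.1⟩
  have hS2 : ∀ w, 0 < q w → T2 w ∈ Finset.Ico A2 (A2 + (N : ℤ)) := fun w h =>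
    Finset.mem_Ico.mpr ⟨(hT w h).2.2.1, (hT w h).2.2.2.1⟩
  have hen : (∑ w, ∑ w', if w ∈ (Set.univ : Set W) ∧ w' ∈ (Set.univ : Set W) ∧
      (x w, T2 w) = (x w', T2 w') then
      Uw q T1 T2 R N w * Uw q T1 T2 R N w' else 0) ≤ E := by
    have h3 := Uw_energy (R := R) hq hN hS1 hS2 (B := 1026 * M / δ) (by positivity)
      (mnr δ M) (fun z z' => mnr_count hδ hδ1 hM hNM z z')
    refine (Finset.sum_le_sum fun w _ => Finset.sum_le_sum fun w' _ => ?_).trans (h3.trans ?_)
    · have hU0 := Uw_nonneg (T1 := T1) (T2 := T2) (R := R) (N := N) hq.nonneg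
      by_cases h4 : (x w, T2 w) = (x w', T2 w')
      · rw [if_pos ⟨Set.mem_univ _, Set.mem_univ _, h4⟩]
        rcases (hq.nonneg w).eq_or_lt with h5 | h5
        · have : Uw q T1 T2 R N w = 0 := by unfold Uw; rw [← h5]; ring
          rw [this]
          split_ifs <;> simp
        rcases (hq.nonneg w').eq_or_lt with h6 | h6
        · have : Uw q T1 T2 R N w' = 0 := by unfold Uw; rw [← h6]; ring
          rw [this]
          split_ifs <;> simp
        rw [if_pos]
        obtain ⟨hx1, hx2⟩ := Prod.mk.inj h4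
        have a1 := hx w h5
        have b1 := hx w' h6
        rw [← hx1, ← hx2] at b1
        have c1 := (hT w h5).2.2.2.2
        have c2 := (hT w' h6).2.2.2.2
        rw [← hx2] at c2
        refine ⟨⟨hR w h5, hR w' h6, c1, c2⟩, hx2, ?_⟩
        show |((T2 w : ℝ) - T1 w) * R w - ((T2 w : ℝ) - T1 w') * R w'| ≤ 128
        have e1 : ((T2 w : ℝ) - T1 w) * R w - ((T2 w : ℝ) - T1 w') * R w' =
            ((x w : ℝ) - (x0 (T2 w) + ((T2 w : ℝ) - T1 w') * R w')) -
            ((x w : ℝ) - (x0 (T2 w) + ((T2 w : ℝ) - T1 w) * R w)) := by ring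
        rw [e1]
        refine (abs_sub _ _).trans ?_
        linarith
      · rw [if_neg (fun h => h4 h.2.2)]
        split_ifs
        · exact mul_nonneg (hU0 w) (hU0 w')
        · exact le_rfl
    · rw [hE]
      have hl : Real.log N ≤ Real.log M := Real.log_le_log hN' (by exact_mod_cast hNM)
      have hlN : 0 ≤ Real.log N := Real.log_nonneg (by exact_mod_cast hN)
      calc 1026 * M / δ * (4 * (1 + Real.log N)) / N ^ 3 =
          4104 * M * (1 + Real.log N) / (δ * N ^ 3) := by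
            field_simp
            ring
        _ ≤ _ := by gcongr
  have h := lja_thm W (ℤ × ℤ) q (Uw q T1 T2 R N) (fun w => (x w, T2 w)) Set.univ E hq
    (Uw_nonneg hq.nonneg) (Uw_sum hq hN hS1 hS2) (fun w => Uw_pos hq.nonneg hN) hEpos
    (by convert hen)
  rw [Uw_KL hq hN] at h
  have hPr : Pr q Set.univ = 1 := by
    unfold Pr law
    rw [← hq.sum_one]
    refine Finset.sum_congr rfl fun w _ => ?_
    simp
  rw [hPr, one_mul] at h
  have hlog : Real.log (1 / E) = 3 * Real.log N - Real.log M -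
      Real.log (4104 * (1 + Real.log M) / δ) := by
    have e1 : 1 / E = N ^ 3 / M / (4104 * (1 + Real.log M) / δ) := by
      rw [hE]
      field_simp
    rw [e1, Real.log_div (by positivity) (by positivity), Real.log_div (by positivity) hM'.ne',
      Real.log_pow]
    push_cast
    ring
  rw [hlog] at h
  have hT2 : H q T2 ≤ Real.log N := by
    have h1 := H_le_log_card hq.nonneg hq.sum_one T2 (Finset.Ico A2 (A2 + (N : ℤ))) hS2
    rwa [Int.card_Ico, add_sub_cancel_left, Int.toNat_natCast] at h1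
  unfold CH
  linarith

open Classical in
/-- All values of the context. -/
theorem mar_cond {Γ : Type} {c : W → Γ} {T1 T2 x : W → ℤ} {R : W → ℝ} {x0 : Γ → ℤ → ℝ}
    {A1 A2 : Γ → ℤ} {M N : ℕ} {δ : ℝ}
    (hq : IsLaw q) (hN : 1 ≤ N) (hNM : N ≤ M) (hδ : 0 < δ) (hδ1 : δ ≤ 1)
    (hT : ∀ w, 0 < q w → A1 (c w) ≤ T1 w ∧ T1 w < A1 (c w) + N ∧ A2 (c w) ≤ T2 w ∧
      T2 w < A2 (c w) + N ∧ |(T2 w : ℝ) - T1 w| ≤ M)
    (hR : ∀ w, 0 < q w → δ ≤ |R w|)
    (hx : ∀ w, 0 < q w →
      |(x w : ℝ) - (x0 (c w) (T2 w) + ((T2 w : ℝ) - T1 w) * R w)| ≤ 64) :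
    2 * Real.log N - Real.log M - Real.log (4104 * (1 + Real.log M) / δ) -
      2 * ((Real.log N - CH q T1 c) + (Real.log N - CH q T2 (fun w => (T1 w, R w, c w)))) - 3 ≤
      CH q x (fun w => (T2 w, c w)) := by
  set K := 2 * Real.log N - Real.log M - Real.log (4104 * (1 + Real.log M) / δ) with hK
  have key : ∀ z ∈ univ.image c, law q c z * (K -
      2 * (2 * Real.log N - H (Pool.Agent.H49.Ent.cond q c z) T1 -
        H (Pool.Agent.H49.Ent.cond q c z) (fun v => ((T1 v, R v), T2 v)) +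
        H (Pool.Agent.H49.Ent.cond q c z) (fun v => (T1 v, R v))) - 3) ≤
      law q c z * (H (Pool.Agent.H49.Ent.cond q c z) (fun w => (x w, T2 w)) -
        H (Pool.Agent.H49.Ent.cond q c z) T2) := by
    intro z _
    rcases (law_nonneg hq.nonneg c z).eq_or_lt with h0 | h0
    · simp [← h0]
    · refine mul_le_mul_of_nonneg_left ?_ h0.le
      have hqz : IsLaw (Pool.Agent.H49.Ent.cond q c z) :=
        ⟨fun a => cond_nonneg hq.nonneg _ _ a, sum_cond q _ h0.ne'⟩
      have hpos := fun w => (cond_pos_iff hq.nonneg c z w)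
      refine mar_core (x0 := x0 z) (A1 := A1 z) (A2 := A2 z) hqz hN hNM hδ hδ1
        ?_ ?_ ?_
      · intro w hw
        obtain ⟨h1, h2⟩ := (hpos w).mp hw
        rw [← h2]
        exact hT w h1
      · intro w hw
        obtain ⟨h1, h2⟩ := (hpos w).mp hw
        exact hR w h1
      · intro w hw
        obtain ⟨h1, h2⟩ := (hpos w).mp hw
        rw [← h2]
        exact hx w h1
  have hsum := Finset.sum_le_sum key
  have hl : ∑ z ∈ univ.image c, law q c z = 1 := by rw [sum_law, hq.sum_one]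
  have hR' : ∑ z ∈ univ.image c, law q c z *
      (H (Pool.Agent.H49.Ent.cond q c z) (fun w => (x w, T2 w)) -
        H (Pool.Agent.H49.Ent.cond q c z) T2) = CH q x (fun w => (T2 w, c w)) := by
    have h1 : CH q x (fun w => (T2 w, c w)) = CH q (fun w => (x w, T2 w)) c - CH q T2 c := by
      have h2 := CH_chain hq.nonneg x T2 c
      linarith
    rw [h1, CH_eq_sum hq.nonneg, CH_eq_sum hq.nonneg, ← Finset.sum_sub_distrib]
    refine Finset.sum_congr rfl fun z _ => ?_
    ring
  rw [hR'] at hsum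
  have hL : ∑ z ∈ univ.image c, law q c z * (K -
      2 * (2 * Real.log N - H (Pool.Agent.H49.Ent.cond q c z) T1 -
        H (Pool.Agent.H49.Ent.cond q c z) (fun v => ((T1 v, R v), T2 v)) +
        H (Pool.Agent.H49.Ent.cond q c z) (fun v => (T1 v, R v))) - 3) =
      K - 2 * (2 * Real.log N - CH q T1 c - CH q (fun v => ((T1 v, R v), T2 v)) c +
        CH q (fun v => (T1 v, R v)) c) - 3 := by
    rw [CH_eq_sum hq.nonneg T1, CH_eq_sum hq.nonneg (fun v => ((T1 v, R v), T2 v)),
      CH_eq_sum hq.nonneg (fun v => (T1 v, R v))]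
    have e1 : 2 * Real.log N = ∑ z ∈ univ.image c, law q c z * (2 * Real.log N) := by
      rw [← Finset.sum_mul, hl, one_mul]
    have e2 : K = ∑ z ∈ univ.image c, law q c z * K := by
      rw [← Finset.sum_mul, hl, one_mul]
    have e3 : (3 : ℝ) = ∑ z ∈ univ.image c, law q c z * 3 := by
      rw [← Finset.sum_mul, hl, one_mul]
    conv_rhs => rw [e1, e2, e3]
    rw [← Finset.sum_sub_distrib, ← Finset.sum_sub_distrib,
      ← Finset.sum_add_distrib, Finset.mul_sum, ← Finset.sum_sub_distrib,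
      ← Finset.sum_sub_distrib]
    refine Finset.sum_congr rfl fun z _ => ?_
    ring
  rw [hL] at hsum
  have hch : CH q T2 (fun w => (T1 w, R w, c w)) =
      CH q (fun v => ((T1 v, R v), T2 v)) c - CH q (fun v => (T1 v, R v)) c := by
    unfold CH
    have e1 : H q (fun w => (T2 w, (T1 w, R w, c w))) =
        H q (fun w => (((T1 w, R w), T2 w), c w)) :=
      H_congr hq.nonneg (fun _ _ _ _ h => by
        simp only [Prod.mk.injEq] at h ⊢
        tauto) (fun _ _ _ _ h => by
        simp only [Prod.mk.injEq] at h ⊢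
        tauto)
    have e2 : H q (fun w => (T1 w, R w, c w)) = H q (fun w => ((T1 w, R w), c w)) :=
      H_congr hq.nonneg (fun _ _ _ _ h => by
        simp only [Prod.mk.injEq] at h ⊢
        tauto) (fun _ _ _ _ h => by
        simp only [Prod.mk.injEq] at h ⊢
        tauto)
    rw [e1, e2]
    ring
  rw [hch]
  linarith

end core

end Pool.KX
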