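import Pool.Agent.H87.KX.MAR
import Pool.Agent.H70.K2.MarDefs

/-!
# Row MARB of helper70 from the collision count
-/

set_option autoImplicit false

namespace Pool.KX

open Finset Real
open Pool.Agent.H49.Ent Pool.Agent.H32.Dense Pool.STK Pool.KAF Pool.KAL Pool.LJ

open Classical in
/-- Average over the values of a label. -/
lemma sum_law_ite {W Γ : Type} [Fintype W] {q : W → ℝ} (c : W → Γ) (A : Set Γ) :
    ∑ z ∈ univ.image c, law q c z * (if z ∈ A then (1 : ℝ) else 0) = Pr q {w | c w ∈ A} := by
  unfold Pr law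
  have h1 : ∀ z ∈ univ.image c, (∑ w, if c w = z then q w else 0) * (if z ∈ A then (1 : ℝ) else 0) =
      ∑ w, (if c w = z then (if z ∈ A then q w else 0) else 0) := by
    intro z _
    rw [Finset.sum_mul]
    refine Finset.sum_congr rfl fun w _ => ?_
    split_ifs <;> simp
  rw [Finset.sum_congr rfl h1, Finset.sum_comm]
  refine Finset.sum_congr rfl fun w _ => ?_
  rw [Finset.sum_ite_eq, if_pos (Finset.mem_image_of_mem c (Finset.mem_univ w))]
  by_cases h : c w ∈ A
  · rw [if_pos h, if_pos]
    simpa using h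
  · rw [if_neg h, if_neg]
    simpa using h

theorem marb_thm : MARBStmt := by
  classical
  refine ⟨4104, by norm_num, ?_⟩
  intro W Γ _ q c S T x r x0 d M α δ hq hM hα hα1 hδ hδ1 hT hx
  have hM' : (0 : ℝ) < M := by exact_mod_cast hM
  set K := Real.log M - Real.log (4104 * (1 + Real.log M) / (α * δ)) with hK
  have key : ∀ z ∈ univ.image c, law q c z * ((if z ∈ {z | δ ≤ |d z|} then (1 : ℝ) else 0) * K -
      2 * (2 * Real.log M - H (Pool.Agent.H49.Ent.cond q c z) (fun w => (S w, T w))) - 3) ≤
      law q c z * (H (Pool.Agent.H49.Ent.cond q c z) (fun w => (x w, S w)) -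
        H (Pool.Agent.H49.Ent.cond q c z) S) := by
    intro z _
    rcases (law_nonneg hq.nonneg c z).eq_or_lt with h0 | h0
    · simp [← h0]
    refine mul_le_mul_of_nonneg_left ?_ h0.le
    have hqz : IsLaw (Pool.Agent.H49.Ent.cond q c z) :=
      ⟨fun a => cond_nonneg hq.nonneg _ _ a, sum_cond q _ h0.ne'⟩
    have hpos := fun w => (cond_pos_iff hq.nonneg c z w)
    set p := Pool.Agent.H49.Ent.cond q c z with hp
    have hTz : ∀ w, 0 < p w → 0 ≤ S w ∧ S w < M ∧ 0 ≤ T w ∧ T w < M ∧ α ≤ |r z (T w)| := by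
      intro w hw
      obtain ⟨h1, h2⟩ := (hpos w).mp hw
      rw [← h2]
      exact hT w h1
    by_cases hd : δ ≤ |d z|
    · have h1 := mar_core (T1 := T) (T2 := S) (x := x) (R := fun w => r z (T w) * d z)
        (x0 := x0 z) (A1 := 0) (A2 := 0) (M := M) (N := M) (δ := α * δ) hqz hM le_rfl
        (by positivity) (by nlinarith) ?_ ?_ ?_
      · rw [if_pos (show z ∈ {z | δ ≤ |d z|} from hd), one_mul]
        have e1 : H p (fun v => ((T v, r z (T v) * d z), S v)) = H p (fun w => (S w, T w)) :=
          H_congr hqz.nonneg (fun _ _ _ _ h => by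
            simp only [Prod.mk.injEq] at h ⊢
            tauto) (fun _ _ _ _ h => by
            simp only [Prod.mk.injEq] at h ⊢
            rw [h.2]
            tauto)
        have e2 : H p (fun v => (T v, r z (T v) * d z)) = H p T :=
          H_congr hqz.nonneg (fun _ _ _ _ h => (by rw [h])) (fun _ _ _ _ h => (Prod.ext_iff.mp h).1)
        rw [e1, e2] at h1
        unfold CH at h1
        linarith
      · intro w hw
        obtain ⟨a1, a2, a3, a4, _⟩ := hTz w hw
        refine ⟨a3, by linarith, a1, by linarith, ?_⟩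
        rw [abs_le]
        have b1 : (0 : ℝ) ≤ S w := by exact_mod_cast a1
        have b2 : (S w : ℝ) < M := by exact_mod_cast a2
        have b3 : (0 : ℝ) ≤ T w := by exact_mod_cast a3
        have b4 : (T w : ℝ) < M := by exact_mod_cast a4
        constructor <;> linarith
      · intro w hw
        rw [abs_mul]
        exact mul_le_mul (hTz w hw).2.2.2.2 hd hδ.le (abs_nonneg _)
      · intro w hw
        obtain ⟨h1, h2⟩ := (hpos w).mp hw
        have h3 := hx w h1
        rw [h2] at h3
        rw [← mul_assoc]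
        exact h3
    · rw [if_neg (show z ∉ {z | δ ≤ |d z|} from hd), zero_mul]
      have h1 : H p (fun w => (S w, T w)) ≤ 2 * Real.log M := by
        have h2 := H_le_log_card hqz.nonneg hqz.sum_one (fun w => (S w, T w))
          ((Finset.Ico (0 : ℤ) M) ×ˢ (Finset.Ico (0 : ℤ) M)) (fun w hw => by
            obtain ⟨a1, a2, a3, a4, _⟩ := hTz w hw
            exact Finset.mem_product.mpr ⟨Finset.mem_Ico.mpr ⟨a1, a2⟩,
              Finset.mem_Ico.mpr ⟨a3, a4⟩⟩)
        rw [Finset.card_product, Int.card_Ico, sub_zero, Int.toNat_natCast, Nat.cast_mul,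
          Real.log_mul hM'.ne' hM'.ne'] at h2
        linarith
      have h2 : 0 ≤ H p (fun w => (x w, S w)) - H p S := CH_nonneg hqz.nonneg x S
      linarith
  have hsum := Finset.sum_le_sum key
  have hl : ∑ z ∈ univ.image c, law q c z = 1 := by rw [sum_law, hq.sum_one]
  have hR' : ∑ z ∈ univ.image c, law q c z *
      (H (Pool.Agent.H49.Ent.cond q c z) (fun w => (x w, S w)) -
        H (Pool.Agent.H49.Ent.cond q c z) S) = CH q x (fun w => (S w, c w)) := by
    have h1 : CH q x (fun w => (S w, c w)) = CH q (fun w => (x w, S w)) c - CH q S c := by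
      have h2 := CH_chain hq.nonneg x S c
      linarith
    rw [h1, CH_eq_sum hq.nonneg, CH_eq_sum hq.nonneg, ← Finset.sum_sub_distrib]
    refine Finset.sum_congr rfl fun z _ => ?_
    ring
  rw [hR'] at hsum
  have hL : ∑ z ∈ univ.image c, law q c z * ((if z ∈ {z | δ ≤ |d z|} then (1 : ℝ) else 0) * K -
      2 * (2 * Real.log M - H (Pool.Agent.H49.Ent.cond q c z) (fun w => (S w, T w))) - 3) =
      Pr q {w | δ ≤ |d (c w)|} * K - 2 * (2 * Real.log M - CH q (fun w => (S w, T w)) c) - 3 := by
    have h1 := sum_law_ite (q := q) c {z | δ ≤ |d z|}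
    have h2 : Pr q {w | δ ≤ |d (c w)|} = ∑ z ∈ univ.image c,
        law q c z * (if z ∈ {z | δ ≤ |d z|} then (1 : ℝ) else 0) := by
      rw [h1]
      rfl
    rw [h2, CH_eq_sum hq.nonneg (fun w => (S w, T w))]
    have e1 : 2 * Real.log M = ∑ z ∈ univ.image c, law q c z * (2 * Real.log M) := by
      rw [← Finset.sum_mul, hl, one_mul]
    have e3 : (3 : ℝ) = ∑ z ∈ univ.image c, law q c z * 3 := by
      rw [← Finset.sum_mul, hl, one_mul]
    conv_rhs => rw [e1, e3]
    rw [Finset.sum_mul, ← Finset.sum_sub_distrib, Finset.mul_sum, ← Finset.sum_sub_distrib,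
      ← Finset.sum_sub_distrib]
    refine Finset.sum_congr rfl fun z _ => ?_
    ring
  rw [hL] at hsum
  have hch : CH q (fun w => (S w, T w)) c = CH q S c + CH q T (fun w => (S w, c w)) := by
    have h1 := CH_chain hq.nonneg T S c
    have h2 : CH q (fun w => (T w, S w)) c = CH q (fun w => (S w, T w)) c := by
      refine CH_congr hq.nonneg ?_ ?_ (fun _ _ _ _ h => h) (fun _ _ _ _ h => h) <;>
      · intro ω ω' _ _ h
        simp only [Prod.mk.injEq] at h ⊢
        tauto
    linarith
  rw [hch] at hsum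
  linarith

end Pool.KX
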