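import Pool.Agent.H87.KX.MARB
import Pool.Agent.H70.K2.Tup

/-!
# Row MARD: the class step, base times where the slope vanishes, partners where it is large
-/

set_option autoImplicit false

namespace Pool.KX

open Finset Real
open Pool.Agent.H49.Ent Pool.Agent.H32.Dense Pool.STK Pool.KAF Pool.KAL Pool.LJ

/-- The geometry of one step of the walk, in real numbers. -/
lemma mard_geo {k n3 n1 n0 s t t0 v v' F o o' : ℝ} (hk : 0 < k)
    (hs : 0 ≤ s ∧ s ≤ k) (ht : 0 ≤ t ∧ t ≤ k)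
    (h1 : |k * (n3 - n1) - (s - t) * v'| ≤ 4 * k)
    (h2 : |k * (n1 - n0) - (t - t0) * v| ≤ 4 * k)
    (h3 : |k * (v' - v) - F * (o' - o)| ≤ 4 * k) :
    |n3 - (n0 + (s - t0) * v / k + (s - t) * (F / k) * ((o' - o) / k))| ≤ 64 := by
  have e : n3 - (n0 + (s - t0) * v / k + (s - t) * (F / k) * ((o' - o) / k)) =
      (k * (n3 - n1) - (s - t) * v') / k + (k * (n1 - n0) - (t - t0) * v) / k +
        (s - t) * (k * (v' - v) - F * (o' - o)) / (k * k) := by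
    field_simp
    ring
  rw [e]
  have a1 : |(k * (n3 - n1) - (s - t) * v') / k| ≤ 4 := by
    rw [abs_div, abs_of_pos hk, div_le_iff₀ hk]
    exact h1
  have a2 : |(k * (n1 - n0) - (t - t0) * v) / k| ≤ 4 := by
    rw [abs_div, abs_of_pos hk, div_le_iff₀ hk]
    exact h2
  have a3 : |(s - t) * (k * (v' - v) - F * (o' - o)) / (k * k)| ≤ 4 := by
    rw [abs_div, abs_mul, abs_of_pos (mul_pos hk hk), div_le_iff₀ (mul_pos hk hk)]
    have b1 : |s - t| ≤ k := by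
      rw [abs_le]
      constructor <;> linarith [hs.1, hs.2, ht.1, ht.2]
    have b2 := mul_le_mul b1 h3 (abs_nonneg _) hk.le
    linarith
  calc |(k * (n3 - n1) - (s - t) * v') / k + (k * (n1 - n0) - (t - t0) * v) / k +
        (s - t) * (k * (v' - v) - F * (o' - o)) / (k * k)|
      ≤ |(k * (n3 - n1) - (s - t) * v') / k| + |(k * (n1 - n0) - (t - t0) * v) / k| +
        |(s - t) * (k * (v' - v) - F * (o' - o)) / (k * k)| := by
        refine (abs_add_le _ _).trans ?_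
        gcongr
        exact abs_add_le _ _
    _ ≤ 64 := by linarith

theorem mard_thm : MARDStmt := by
  classical
  obtain ⟨C, hC1, hmarb⟩ := marb_thm
  refine ⟨C + 24, by linarith, ?_⟩
  intro Ω Λ β γ _ p lam b P T nz om vz F E B K α δ e I β2 η κ hp hα hα1 hδ hδ1 hη hE he hI hβ2
    hκ hκβ hrange hline hmate hFB hηB hT hom hdbl
  set Z : Ω → β × ℤ × γ := fun ω => (b ω, T ω, P ω) with hZ
  have D : TUP.Dat p lam Z E B η κ := ⟨hp, hη, hE, hκ, hηB⟩
  have hκ1 := TUP.κ_one D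
  have hq := TUP.qq_isLaw D
  set q := TUP.qq p lam Z E B with hqd
  have hkpos : (0 : ℝ) < 2 ^ K := by positivity
  have hlogκ : 0 ≤ Real.log κ := Real.log_nonneg hκ1
  have hlogκ' : Real.log κ ≤ κ := by
    have := Real.log_le_sub_one_of_pos (by linarith : 0 < κ)
    linarith
  -- trivial case
  have hCH0 : 0 ≤ CH (rs p E) nz (fun ω => (b ω, T ω)) :=
    CH_nonneg (rs_law hp hE).nonneg _ _
  have hκeI : 0 ≤ κ * (e + I + 1) := mul_nonneg (by linarith) (by linarith)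
  by_cases hA : K * Real.log 2 - Real.log ((C + 24) * (1 + K) / (α * δ)) ≤ 0
  · have h1 : (1 - κ * β2) * (K * Real.log 2 - Real.log ((C + 24) * (1 + K) / (α * δ))) ≤ 0 :=
      mul_nonpos_of_nonneg_of_nonpos (by linarith) hA
    have h2 : 0 ≤ (C + 24) * (κ * (e + I + 1)) := mul_nonneg (by linarith) hκeI
    linarith
  push Not at hA
  -- representatives of the lines
  have hex : ∀ l : Λ, ∃ ω : Ω, (∃ ω', 0 < p ω' ∧ lam ω' = l) → (0 < p ω ∧ lam ω = l) := by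
    intro l
    by_cases h : ∃ ω', 0 < p ω' ∧ lam ω' = l
    · obtain ⟨ω', h'⟩ := h
      exact ⟨ω', fun _ => h'⟩
    · obtain ⟨ω₀, _⟩ : ∃ ω : Ω, 0 < p ω := by
        by_contra hcon
        push Not at hcon
        have : ∑ ω, p ω ≤ 0 := Finset.sum_nonpos fun ω _ => hcon ω
        rw [hp.sum_one] at this
        linarith
      exact ⟨ω₀, fun h' => absurd h' h⟩
  choose rep hrep using hex
  have hex2 : ∀ (l : Λ) (t : ℤ), ∃ f : ℤ, ∀ ω, 0 < p ω → lam ω = l → T ω = t → F ω = f := by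
    intro l t
    by_cases h : ∃ ω', 0 < p ω' ∧ lam ω' = l ∧ T ω' = t
    · obtain ⟨ω', h1, h2, h3⟩ := h
      refine ⟨F ω', fun ω hω hl ht => ?_⟩
      exact (hline ω ω' hω h1 (by rw [hl, h2])).2.2.2.2 (by rw [ht, h3])
    · exact ⟨0, fun ω hω hl ht => absurd ⟨ω, hω, hl, ht⟩ h⟩
  choose fF hfF using hex2
  -- the step
  have h2K : ((2 ^ K : ℕ) : ℝ) = 2 ^ K := by push_cast; rfl
  have key := hmarb ((Ω × Ω) × Ω) (Λ × ℤ) q (fun w => (lam w.2, om w.1.2))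
    (fun w => T w.1.1) (fun w => T w.2) (fun w => nz w.1.1)
    (fun c t => (fF c.1 t : ℝ) / 2 ^ K)
    (fun c s => (nz (rep c.1) : ℝ) + ((s : ℝ) - T (rep c.1)) * vz (rep c.1) / 2 ^ K)
    (fun c => ((c.2 : ℝ) - om (rep c.1)) / 2 ^ K) (2 ^ K) α δ hq Nat.one_le_two_pow hα hα1 hδ hδ1
    (by
      intro w hw
      obtain ⟨a1, a2, a3, a4, a5, a6, a7⟩ := TUP.qq_pos D hw
      obtain ⟨b1, b2, _⟩ := hrange _ a1
      obtain ⟨c1, c2, _⟩ := hrange _ a5
      refine ⟨b1, by push_cast; exact b2, c1, by push_cast; exact c2, ?_⟩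
      show α ≤ |(fF (lam w.2) (T w.2) : ℝ) / 2 ^ K|
      rw [← hfF (lam w.2) (T w.2) w.2 a5 rfl rfl, abs_div, abs_of_pos hkpos, le_div_iff₀ hkpos]
      have z1 : b w.1.2 = b w.2 := (Prod.ext_iff.1 a7).1
      have z2 : T w.1.2 = T w.2 := (Prod.ext_iff.1 (Prod.ext_iff.1 a7).2).1
      have z3 : P w.1.2 = P w.2 := (Prod.ext_iff.1 (Prod.ext_iff.1 a7).2).2
      have hB2 : w.2 ∈ B := (hmate w.1.2 w.2 a3 a5 z1 z2 z3).2.2.1 a4
      exact hFB _ hB2 a5)
    (by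
      intro w hw
      obtain ⟨a1, a2, a3, a4, a5, a6, a7⟩ := TUP.qq_pos D hw
      have z1 : b w.1.2 = b w.2 := (Prod.ext_iff.1 a7).1
      have z2 : T w.1.2 = T w.2 := (Prod.ext_iff.1 (Prod.ext_iff.1 a7).2).1
      have z3 : P w.1.2 = P w.2 := (Prod.ext_iff.1 (Prod.ext_iff.1 a7).2).2
      obtain ⟨m1, m2, m3, m4⟩ := hmate w.1.2 w.2 a3 a5 z1 z2 z3
      obtain ⟨r1, r2⟩ := hrep (lam w.2) ⟨w.2, a5, rfl⟩
      obtain ⟨l1, l2, l3, l4, l5⟩ := hline w.1.2 w.1.1 a3 a1 a6.symm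
      obtain ⟨k1, k2, k3, k4, k5⟩ := hline (rep (lam w.2)) w.2 r1 a5 r2
      obtain ⟨b1, b2, _⟩ := hrange _ a1
      obtain ⟨c1, c2, _⟩ := hrange _ a5
      show |(nz w.1.1 : ℝ) - ((nz (rep (lam w.2)) : ℝ) +
        ((T w.1.1 : ℝ) - T (rep (lam w.2))) * vz (rep (lam w.2)) / 2 ^ K +
        ((T w.1.1 : ℝ) - T w.2) * ((fF (lam w.2) (T w.2) : ℝ) / 2 ^ K) *
          (((om w.1.2 : ℝ) - om (rep (lam w.2))) / 2 ^ K))| ≤ 64
      rw [← hfF (lam w.2) (T w.2) w.2 a5 rfl rfl]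
      refine mard_geo (n1 := nz w.2) (v' := vz w.1.2) hkpos ⟨by exact_mod_cast b1, ?_⟩
        ⟨by exact_mod_cast c1, ?_⟩ ?_ ?_ ?_
      · have : (T w.1.1 : ℝ) < 2 ^ K := by exact_mod_cast b2
        exact this.le
      · have : (T w.2 : ℝ) < 2 ^ K := by exact_mod_cast c2
        exact this.le
      · rw [← m1, ← z2]
        exact l4
      · exact k4
      · rw [k2, k3, abs_sub_comm]
        rw [abs_sub_comm] at m4
        have e1 : (2 : ℝ) ^ K * ((vz w.2 : ℝ) - vz w.1.2) - F w.1.2 * ((om w.2 : ℝ) - om w.1.2) =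
            -(2 ^ K * ((vz w.1.2 : ℝ) - vz w.2) - F w.2 * ((om w.1.2 : ℝ) - om w.2)) := by
          rw [m2]
          ring
        rw [abs_sub_comm] at m4 ⊢
        rw [e1, abs_neg] at m4
        exact m4)
  have hlogM : Real.log ((2 ^ K : ℕ) : ℝ) = K * Real.log 2 := by
    rw [h2K, Real.log_pow]
  rw [hlogM] at key
  -- deficits of the times
  have hZb : ∀ ω ω', Z ω = Z ω' → b ω = b ω' ∧ T ω = T ω' := by
    intro ω ω' h
    exact ⟨(Prod.ext_iff.1 h).1, (Prod.ext_iff.1 (Prod.ext_iff.1 h).2).1⟩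
  have hZf : ∀ ω ω', b ω = b ω' → (T ω, Z ω) = (T ω', Z ω') → Z ω = Z ω' :=
    fun ω ω' _ h2 => (Prod.ext_iff.1 h2).2
  have hom' : CH p om b - CH p om (fun ω => ((T ω, Z ω), b ω)) ≤ I := by
    have h1 : CH p om (fun ω => ((T ω, Z ω), b ω)) = CH p om (fun ω => (b ω, T ω, P ω)) := by
      refine CH_congr hp.nonneg (fun _ _ _ _ h => (Prod.ext_iff.1 h).1)
        (fun _ _ _ _ h => (Prod.ext_iff.1 h).1) ?_ ?_
      · intro ω ω' _ _ h
        exact (Prod.ext_iff.1 (Prod.ext_iff.1 h).1).2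
      · intro ω ω' _ _ h
        have h2 : Z ω = Z ω' := h
        show ((T ω, Z ω), b ω) = ((T ω', Z ω'), b ω')
        rw [h2, (hZb ω ω' h2).1, (hZb ω ω' h2).2]
    rw [h1]
    exact hom
  have htimes := TUP.times (Z := Z) (b := b) (P' := Z) D T om K e I (fun ω hω =>
    ⟨(hrange ω hω).1, (hrange ω hω).2.1⟩) (fun ω ω' h1 h2 h3 => (hline ω ω' h1 h2 h3).1)
    hZb hZf hT hom'
  have hF : ∀ ω, 0 < p ω → T ω ∈ Finset.Ico (0 : ℤ) (2 ^ K) := fun ω hω =>
    Finset.mem_Ico.2 ⟨(hrange ω hω).1, (hrange ω hω).2.1⟩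
  have hcard : Real.log ((Finset.Ico (0 : ℤ) (2 ^ K)).card) = K * Real.log 2 := by
    rw [Int.card_Ico, sub_zero]
    have : ((((2 : ℤ) ^ K).toNat : ℕ) : ℝ) = 2 ^ K := by
      have h1 : (((2 : ℤ) ^ K).toNat : ℤ) = 2 ^ K := Int.toNat_of_nonneg (by positivity)
      exact_mod_cast h1
    rw [this, Real.log_pow]
  have d1 := dom1_thm Ω ℤ Λ p (rs p E) T lam _ κ hp (rs_law hp hE) (by
    intro ω
    refine (TUP.rsE_le D ω).trans ?_
    exact mul_le_mul_of_nonneg_right (TUP.invE_le D) (hp.nonneg ω)) hF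
  rw [hcard] at d1
  have t4 : CH (rs p E) T lam ≤ CH q (fun w => T w.1.1) (fun w => (lam w.2, om w.1.2)) := by
    rw [← TUP.CH_base D T]
    refine CH_mono_cond hq.nonneg ?_
    intro w w' _ _ h
    simp only [Prod.mk.injEq] at h ⊢
    exact ⟨by rw [h.2], by rw [h.1.2]⟩
  -- the event
  have hPr : 1 - κ * β2 ≤ Pr q {w | δ ≤ |((om w.1.2 : ℝ) - om (rep (lam w.2))) / 2 ^ K|} := by
    have h1 := TUP.pair_dom D (fun ω ω' => |(om ω' : ℝ) - om ω| < δ * 2 ^ K)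
    have h2 : κ * Pr (dbl p Z) {w | |(om w.2 : ℝ) - om w.1| < δ * 2 ^ K} ≤ κ * β2 :=
      mul_le_mul_of_nonneg_left hdbl (by linarith)
    have h3 : Pr q {w | δ ≤ |((om w.1.2 : ℝ) - om (rep (lam w.2))) / 2 ^ K|} +
        Pr q {w | |(om w.2 : ℝ) - om w.1.2| < δ * 2 ^ K} = 1 := by
      rw [Pool.KAF.Pr_eq, Pool.KAF.Pr_eq, ← Finset.sum_add_distrib, ← hq.sum_one]
      refine Finset.sum_congr rfl fun w _ => ?_
      rcases (hq.nonneg w).eq_or_lt with h0 | h0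
      · simp [← h0]
      obtain ⟨a1, a2, a3, a4, a5, a6, a7⟩ := TUP.qq_pos D h0
      obtain ⟨r1, r2⟩ := hrep (lam w.2) ⟨w.2, a5, rfl⟩
      have k2 := (hline (rep (lam w.2)) w.2 r1 a5 r2).2.1
      have e1 : (δ ≤ |((om w.1.2 : ℝ) - om (rep (lam w.2))) / 2 ^ K|) ↔
          ¬ (|(om w.2 : ℝ) - om w.1.2| < δ * 2 ^ K) := by
        rw [k2, abs_div, abs_of_pos hkpos, le_div_iff₀ hkpos, not_lt, abs_sub_comm]
      by_cases h : |(om w.2 : ℝ) - om w.1.2| < δ * 2 ^ K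
      · have m1 : w ∉ {w : (Ω × Ω) × Ω |
            δ ≤ |((om w.1.2 : ℝ) - om (rep (lam w.2))) / 2 ^ K|} := fun hm => (e1.1 hm) h
        have m2 : w ∈ {w : (Ω × Ω) × Ω | |(om w.2 : ℝ) - om w.1.2| < δ * 2 ^ K} := h
        rw [if_neg m1, if_pos m2, zero_add]
      · have m1 : w ∈ {w : (Ω × Ω) × Ω |
            δ ≤ |((om w.1.2 : ℝ) - om (rep (lam w.2))) / 2 ^ K|} := e1.2 h
        have m2 : w ∉ {w : (Ω × Ω) × Ω | |(om w.2 : ℝ) - om w.1.2| < δ * 2 ^ K} := h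
        rw [if_pos m1, if_neg m2, add_zero]
    have h4 : Pr q {w | |(om w.2 : ℝ) - om w.1.2| < δ * 2 ^ K} ≤ κ * β2 := h1.trans h2
    linarith
  -- the condition
  have hcond : CH q (fun w => nz w.1.1) (fun w => (T w.1.1, (lam w.2, om w.1.2))) ≤
      CH (rs p E) nz (fun ω => (b ω, T ω)) := by
    rw [← (TUP.qq_o3 D).CH nz (fun ω => (b ω, T ω))]
    refine CH_mono_cond hq.nonneg ?_
    intro w w' hw hw' h
    obtain ⟨a1, a2, a3, a4, a5, a6, a7⟩ := TUP.qq_pos D hw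
    obtain ⟨b1, b2, b3, b4, b5, b6, b7⟩ := TUP.qq_pos D hw'
    have z1 : b w.1.2 = b w.2 := (Prod.ext_iff.1 a7).1
    have z2 : b w'.1.2 = b w'.2 := (Prod.ext_iff.1 b7).1
    simp only [Prod.mk.injEq] at h ⊢
    refine ⟨?_, h.1⟩
    rw [(hline _ _ a1 a3 a6).1, (hline _ _ b1 b3 b6).1, z1, z2]
    exact (hline _ _ a5 b5 h.2.1).1
  -- conclusion
  have hA2 : K * Real.log 2 - Real.log ((C + 24) * (1 + K) / (α * δ)) ≤
      K * Real.log 2 - Real.log (C * (1 + K * Real.log 2) / (α * δ)) := by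
    have h2 : Real.log 2 ≤ 1 := by
      have := Real.log_two_lt_d9
      linarith
    have h3 : 0 ≤ Real.log 2 := (Real.log_pos (by norm_num)).le
    have hK0 : (0 : ℝ) ≤ K := Nat.cast_nonneg K
    have h4 : 0 < C * (1 + K * Real.log 2) / (α * δ) := by
      have : 0 ≤ K * Real.log 2 := mul_nonneg hK0 h3
      positivity
    have h5 : C * (1 + K * Real.log 2) / (α * δ) ≤ (C + 24) * (1 + K) / (α * δ) := by
      gcongr
      · linarith
      · nlinarith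
    have := Real.log_le_log h4 h5
    linarith
  have hmul : (1 - κ * β2) * (K * Real.log 2 - Real.log ((C + 24) * (1 + K) / (α * δ))) ≤
      Pr q {w | δ ≤ |((om w.1.2 : ℝ) - om (rep (lam w.2))) / 2 ^ K|} *
        (K * Real.log 2 - Real.log (C * (1 + K * Real.log 2) / (α * δ))) :=
    mul_le_mul hPr hA2 hA.le (Pool.KAF.Pr_nonneg hq.nonneg _)
  have hsplit : κ * (e + I + 1) = κ * e + κ * I + κ := by ring
  have hκe : 0 ≤ κ * e := mul_nonneg (by linarith) he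
  have hκI : 0 ≤ κ * I := mul_nonneg (by linarith) hI
  have hd1 : K * Real.log 2 - CH (rs p E) T lam ≤ κ * (e + 1) + Real.log κ := by
    refine d1.trans ?_
    have : κ * (K * Real.log 2 - CH p T lam + 1) ≤ κ * (e + 1) :=
      mul_le_mul_of_nonneg_left (by linarith) (by linarith)
    linarith
  have hCX : 0 ≤ (C - 1) * (κ * (e + I + 1)) := mul_nonneg (by linarith) hκeI
  have hfin : (C + 24) * (κ * (e + I + 1)) = (C - 1) * (κ * (e + I + 1)) +
      25 * (κ * (e + I + 1)) := by ring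
  have e1 : κ * (e + 1) = κ * e + κ := by ring
  rw [hfin]
  rw [e1] at hd1
  linarith
end Pool.KX
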