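import Pool.Agent.H32.Dense.Conf

/-!
# Mates: two lines which agree in a fine context at one time, seen at another time

`x` is the position block at the time `t₀`, `om` the velocity block, `t` the time `t₁`, `P` the
fine context at the time `t₁`, and `Z` the common context together with `t₀`. Two lines which are
independent given `(P, t, Z)` are called mates. Seen at the time `t₀`, the position of a mate is
nearly independent of the time `t₁` and of both velocity blocks.
-/

set_option autoImplicit false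

namespace Pool.KX

open Finset Real
open Pool.Agent.H49.Ent Pool.Agent.H32.Dense

variable {Ω S U τ θ ζ κ : Type} [Fintype Ω]

/-- The law of two mates. -/
noncomputable def mt (p : Ω → ℝ) (t : Ω → τ) (P : Ω → θ) (Z : Ω → ζ) : Ω × Ω → ℝ :=
  dbl p (fun ω => (P ω, t ω, Z ω))

/-- The total dependence. -/
noncomputable def dt (p : Ω → ℝ) (x : Ω → S) (om : Ω → U) (t : Ω → τ) (P : Ω → θ) (Z : Ω → ζ) : ℝ :=
  (CH p x Z - CH p x (fun ω => (om ω, t ω, Z ω))) +
    (CH p om (fun ω => (t ω, Z ω)) - CH p om (fun ω => (P ω, t ω, Z ω)))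

/-- The full information on two mates: the time, the two velocity blocks and the context. -/
def fu (om : Ω → U) (t : Ω → τ) (Z : Ω → ζ) (w : Ω × Ω) : (U × U) × τ × ζ :=
  ((om w.1, om w.2), t w.2, Z w.2)

theorem mates (p : Ω → ℝ) (hp : ∀ ω, 0 ≤ p ω) (x : Ω → S) (om : Ω → U) (t : Ω → τ) (P : Ω → θ)
    (Z : Ω → ζ) :
    CH p x Z - dt p x om t P Z ≤ CH (mt p t P Z) (fun w => x w.2) (fu om t Z) := by
  have hQ : ∀ w, 0 ≤ mt p t P Z w := dbl_nonneg hp
  have heq : ∀ w, 0 < mt p t P Z w → P w.1 = P w.2 ∧ t w.1 = t w.2 ∧ Z w.1 = Z w.2 := by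
    intro w hw
    have h := dbl_eq hp hw
    simpa using h
  have h2 : Marg (mt p t P Z) p (fun w => w.2) := dbl_snd hp
  have h1 : Marg (mt p t P Z) p (fun w => w.1) := dbl_fst hp
  -- Bayes
  have c1 := CH_chain hQ (fun w => x w.2) (fun w => om w.1) (fun w => (om w.2, t w.2, Z w.2))
  have c2 := CH_chain hQ (fun w => om w.1) (fun w => x w.2) (fun w => (om w.2, t w.2, Z w.2))
  have c3 : CH (mt p t P Z) (fun w => (x w.2, om w.1)) (fun w => (om w.2, t w.2, Z w.2)) =
      CH (mt p t P Z) (fun w => (om w.1, x w.2)) (fun w => (om w.2, t w.2, Z w.2)) := by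
    refine CH_congr hQ ?_ ?_ (fun _ _ _ _ h => h) (fun _ _ _ _ h => h)
    · intro w w' _ _ h
      simp only [Prod.mk.injEq] at h ⊢
      tauto
    · intro w w' _ _ h
      simp only [Prod.mk.injEq] at h ⊢
      tauto
  have c4 : CH (mt p t P Z) (fun w => x w.2) (fun w => (om w.1, (om w.2, t w.2, Z w.2))) =
      CH (mt p t P Z) (fun w => x w.2) (fu om t Z) := by
    refine CH_congr hQ (fun _ _ _ _ h => (Prod.ext_iff.mp h).1)
      (fun _ _ _ _ h => (Prod.ext_iff.mp h).1) ?_ ?_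
    · intro w w' _ _ h
      simp only [Prod.mk.injEq, fu] at h ⊢
      tauto
    · intro w w' _ _ h
      simp only [Prod.mk.injEq, fu] at h ⊢
      tauto
  have m1 : CH (mt p t P Z) (fun w => x w.2) (fun w => (om w.2, t w.2, Z w.2)) =
      CH p x (fun ω => (om ω, t ω, Z ω)) := h2.CH x (fun ω => (om ω, t ω, Z ω))
  have m2 : CH (mt p t P Z) (fun w => om w.1) (fun w => (om w.2, t w.2, Z w.2)) ≤
      CH p om (fun ω => (t ω, Z ω)) := by
    rw [← h1.CH om (fun ω => (t ω, Z ω))]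
    refine CH_mono_cond hQ ?_
    intro w w' hw hw' h
    simp only [Prod.mk.injEq] at h ⊢
    have e := heq w hw
    have e' := heq w' hw'
    refine ⟨?_, ?_⟩
    · rw [e.2.1, e'.2.1]; exact h.2.1
    · rw [e.2.2, e'.2.2]; exact h.2.2
  have m3 : CH p om (fun ω => (P ω, t ω, Z ω)) ≤
      CH (mt p t P Z) (fun w => om w.1) (fun w => (x w.2, (om w.2, t w.2, Z w.2))) := by
    rw [← CH_dbl_1 (b := fun ω => (P ω, t ω, Z ω)) hp om
      (fun ω => (x ω, (om ω, t ω, Z ω)))]
    refine CH_mono_cond hQ ?_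
    intro w w' _ _ h
    exact (Prod.ext_iff.mp h).2
  unfold dt
  rw [c4] at c1
  linarith

/-- The position of a mate given a context `c` between `Z` and the full information. -/
theorem mates_low (p : Ω → ℝ) (hp : ∀ ω, 0 ≤ p ω) (x : Ω → S) (om : Ω → U) (t : Ω → τ)
    (P : Ω → θ) (Z : Ω → ζ) (c : Ω × Ω → κ) (hc : Det (mt p t P Z) (fu om t Z) c) :
    CH p x Z - dt p x om t P Z ≤ CH (mt p t P Z) (fun w => x w.2) c :=
  (mates p hp x om t P Z).trans (CH_mono_cond (dbl_nonneg hp) hc)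

theorem mates_upp (p : Ω → ℝ) (hp : ∀ ω, 0 ≤ p ω) (x : Ω → S) (t : Ω → τ)
    (P : Ω → θ) (Z : Ω → ζ) (c : Ω × Ω → κ)
    (hc : Det (mt p t P Z) c (fun w => Z w.2)) :
    CH (mt p t P Z) (fun w => x w.1) c ≤ CH p x Z ∧
      CH (mt p t P Z) (fun w => x w.2) c ≤ CH p x Z := by
  have hQ : ∀ w, 0 ≤ mt p t P Z w := dbl_nonneg hp
  have heq : ∀ w, 0 < mt p t P Z w → P w.1 = P w.2 ∧ t w.1 = t w.2 ∧ Z w.1 = Z w.2 := by
    intro w hw
    have h := dbl_eq hp hw
    simpa using h
  have h2 : Marg (mt p t P Z) p (fun w => w.2) := dbl_snd hp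
  have h1 : Marg (mt p t P Z) p (fun w => w.1) := dbl_fst hp
  constructor
  · rw [← h1.CH x Z]
    refine CH_mono_cond hQ ?_
    intro w w' hw hw' h
    change Z w.1 = Z w'.1
    rw [(heq w hw).2.2, (heq w' hw').2.2]
    exact hc w w' hw hw' h
  · rw [← h2.CH x Z]
    exact CH_mono_cond hQ hc

end Pool.KX
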