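import Pool.Agent.H97.K2.WDC
import Pool.Agent.H9.K2.Defs
import Pool.Agent.H99.Pinsker

/-!
# Pointwise densities of the time digits

`V j` is a refining chain of labels, `V (j + 1)` is `V j` with one more binary digit `T j`.
`df` is the predictable deficit of the digit. Outside an event of probability `exp (-x)` given
`V i`, the conditional probability of the actual value of `V (i + k)` given `V i` is at most
`2 ^ (-k) exp (2 ∑ df + x)`: the sum is taken along the actual path.
-/

set_option autoImplicit false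

namespace Pool.KX

open Finset Real
open Pool.Agent.H49.Ent Pool.Agent.H32.Dense Pool.STK Pool.KAF Pool.KAL

namespace TD

variable {Ω σ : Type} [Fintype Ω]

/-- Two point laws. -/
lemma bin_ineq {u v : ℝ} (hu : 0 ≤ u) (hv : 0 ≤ v) (h : u + v = 1) :
    2 * (u * u + v * v) ≤ Real.exp (2 * (Real.log 2 + (u * Real.log u + v * Real.log v))) := by
  have h1 := Pool.Agent.H99.LowerTail.relEnt_pinsker (b := 1 / 2) (w := u) (by norm_num)
    (by norm_num) hu (by linarith)
  have h2 : Pool.Agent.H99.LowerTail.relEnt (1 / 2) u =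
      Real.log 2 + (u * Real.log u + v * Real.log v) := by
    have hv' : 1 - u = v := by linarith
    have key : ∀ t : ℝ, 0 ≤ t → t * Real.log (t / (1 / 2)) = t * Real.log t + t * Real.log 2 := by
      intro t ht
      rcases ht.eq_or_lt with h0 | h0
      · rw [← h0]
        simp
      · rw [div_div_eq_mul_div, div_one, Real.log_mul h0.ne' (by norm_num)]
        ring
    unfold Pool.Agent.H99.LowerTail.relEnt
    rw [hv', show (1 : ℝ) - 1 / 2 = 1 / 2 by norm_num, key u hu, key v hv]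
    have : Real.log 2 = u * Real.log 2 + v * Real.log 2 := by
      rw [← add_mul, h, one_mul]
    linarith
  rw [← h2]
  have h3 : 2 * (u * u + v * v) = 4 * (u - 1 / 2) ^ 2 + 1 := by
    have : v = 1 - u := by linarith
    rw [this]
    ring
  rw [h3]
  refine (Real.add_one_le_exp _).trans ?_
  refine Real.exp_le_exp.2 ?_
  linarith

/-- Sums over a binary digit. -/
lemma sum_bool (q : Ω → ℝ) (T : Ω → Bool) (g : Bool → ℝ) :
    ∑ ω, q ω * g (T ω) = law q T true * g true + law q T false * g false := by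
  classical
  unfold law
  rw [Finset.sum_mul, Finset.sum_mul, ← Finset.sum_add_distrib]
  refine Finset.sum_congr rfl fun ω _ => ?_
  cases T ω <;> simp

/-- The predictable deficit of the digit. -/
noncomputable def df (p : Ω → ℝ) (V : Ω → σ) (T : Ω → Bool) (ω : Ω) : ℝ :=
  Real.log 2 - H (Pool.Agent.H49.Ent.cond p V (V ω)) T

/-- The conditional probability of the actual digit. -/
noncomputable def dg (p : Ω → ℝ) (V : Ω → σ) (T : Ω → Bool) (ω : Ω) : ℝ :=
  law (Pool.Agent.H49.Ent.cond p V (V ω)) T (T ω)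

lemma df_nonneg {p : Ω → ℝ} (hp : IsLaw p) (V : Ω → σ) (T : Ω → Bool) {ω : Ω} (hω : 0 < p ω) :
    0 ≤ df p V T ω := by
  have hq : IsLaw (Pool.Agent.H49.Ent.cond p V (V ω)) :=
    ⟨fun a => cond_nonneg hp.nonneg _ _ a, sum_cond p _ (law_pos hp.nonneg V hω).ne'⟩
  have := H_le_log_card hq.nonneg hq.sum_one T (Finset.univ : Finset Bool)
    (fun _ _ => Finset.mem_univ _)
  unfold df
  simp only [Finset.card_univ, Fintype.card_bool, Nat.cast_ofNat] at this
  linarith

lemma df_congr (p : Ω → ℝ) (V : Ω → σ) (T : Ω → Bool) {ω ω' : Ω} (h : V ω = V ω') :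
    df p V T ω = df p V T ω' := by
  unfold df
  rw [h]

lemma dg_nonneg {p : Ω → ℝ} (hp : ∀ ω, 0 ≤ p ω) (V : Ω → σ) (T : Ω → Bool) (ω : Ω) :
    0 ≤ dg p V T ω := law_nonneg (fun a => cond_nonneg hp _ _ a) _ _

/-- One digit. -/
lemma one_step {q : Ω → ℝ} (hq : IsLaw q) (T : Ω → Bool) :
    Ex q (fun ω => 2 * law q T (T ω)) ≤ Real.exp (2 * (Real.log 2 - H q T)) := by
  have hsum : law q T true + law q T false = 1 := by
    have h := sum_bool q T (fun _ => 1)
    simp only [mul_one] at h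
    rw [← h, hq.sum_one]
  have h1 : Ex q (fun ω => 2 * law q T (T ω)) =
      2 * (law q T true * law q T true + law q T false * law q T false) := by
    unfold Ex
    rw [sum_bool q T (fun b => 2 * law q T b)]
    ring
  have h2 : H q T = -(law q T true * Real.log (law q T true) +
      law q T false * Real.log (law q T false)) := by
    unfold H
    rw [sum_bool q T (fun b => Real.log (law q T b))]
  rw [h1, h2, sub_neg_eq_add]
  exact bin_ineq (law_nonneg hq.nonneg _ _) (law_nonneg hq.nonneg _ _) hsum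

/-- The factor of one digit. -/
noncomputable def fac (p : Ω → ℝ) (V : Ω → σ) (T : Ω → Bool) (ω : Ω) : ℝ :=
  2 * dg p V T ω * Real.exp (-(2 * df p V T ω))

lemma fac_nonneg {p : Ω → ℝ} (hp : ∀ ω, 0 ≤ p ω) (V : Ω → σ) (T : Ω → Bool) (ω : Ω) :
    0 ≤ fac p V T ω :=
  mul_nonneg (mul_nonneg (by norm_num) (dg_nonneg hp V T ω)) (Real.exp_pos _).le

lemma fac_congr {p : Ω → ℝ} {V : Ω → σ} {T : Ω → Bool} {ω ω' : Ω} (h : V ω = V ω')
    (hT : T ω = T ω') : fac p V T ω = fac p V T ω' := by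
  unfold fac dg
  rw [df_congr p V T h, h, hT]

lemma ex_fac {p : Ω → ℝ} (hp : IsLaw p) (V : Ω → σ) (T : Ω → Bool) {ω : Ω} (hω : 0 < p ω) :
    Ex (Pool.Agent.H49.Ent.cond p V (V ω)) (fac p V T) ≤ 1 := by
  have hq : IsLaw (Pool.Agent.H49.Ent.cond p V (V ω)) :=
    ⟨fun a => cond_nonneg hp.nonneg _ _ a, sum_cond p _ (law_pos hp.nonneg V hω).ne'⟩
  have h1 : Ex (Pool.Agent.H49.Ent.cond p V (V ω)) (fac p V T) =
      Real.exp (-(2 * df p V T ω)) * Ex (Pool.Agent.H49.Ent.cond p V (V ω))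
        (fun a => 2 * law (Pool.Agent.H49.Ent.cond p V (V ω)) T (T a)) := by
    rw [← Ex_smul]
    unfold Ex
    refine Finset.sum_congr rfl fun a _ => ?_
    rcases (hq.nonneg a).eq_or_lt with h0 | h0
    · rw [← h0, zero_mul, zero_mul]
    · obtain ⟨_, h2⟩ := (cond_pos_iff hp.nonneg _ _ a).1 h0
      unfold fac dg
      rw [df_congr p V T h2, h2]
      ring
  rw [h1]
  have h2 := one_step hq T
  have h3 := mul_le_mul_of_nonneg_left h2 (Real.exp_pos (-(2 * df p V T ω))).le
  refine h3.trans (le_of_eq ?_)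
  rw [← Real.exp_add]
  unfold df
  rw [neg_add_cancel, Real.exp_zero]

variable {p : Ω → ℝ} {V : ℕ → Ω → σ} {T : ℕ → Ω → Bool}

/-- The exponential supermartingale. -/
lemma ex_prod (hp : IsLaw p) (h1 : ∀ j, Det p (V (j + 1)) (V j))
    (h2 : ∀ j, Det p (V (j + 1)) (T j)) (i k : ℕ) (g : Ω → ℝ) (hg0 : ∀ ω, 0 ≤ g ω)
    (hg : ∀ ω ω', 0 < p ω → 0 < p ω' → V i ω = V i ω' → g ω = g ω') :
    Ex p (fun ω => g ω * ∏ j ∈ Finset.Ico i (i + k), fac p (V j) (T j) ω) ≤ Ex p g := by
  induction k with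
  | zero => simp
  | succ k ih =>
    refine le_trans ?_ ih
    have e1 : ∀ ω, g ω * ∏ j ∈ Finset.Ico i (i + (k + 1)), fac p (V j) (T j) ω =
        (g ω * ∏ j ∈ Finset.Ico i (i + k), fac p (V j) (T j) ω) *
          fac p (V (i + k)) (T (i + k)) ω := by
      intro ω
      rw [← add_assoc, Finset.prod_Ico_succ_top (Nat.le_add_right i k), mul_assoc]
    simp only [e1]
    have hF0 : ∀ ω, 0 ≤ g ω * ∏ j ∈ Finset.Ico i (i + k), fac p (V j) (T j) ω := fun ω =>
      mul_nonneg (hg0 ω) (Finset.prod_nonneg fun j _ => fac_nonneg hp.nonneg _ _ _)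
    rw [WDC.tower' hp.nonneg (V (i + k))]
    · refine Ex_mono hp.nonneg fun ω hω => ?_
      have := ex_fac hp (V (i + k)) (T (i + k)) hω
      calc _ ≤ (g ω * ∏ j ∈ Finset.Ico i (i + k), fac p (V j) (T j) ω) * 1 :=
            mul_le_mul_of_nonneg_left this (hF0 ω)
        _ = _ := mul_one _
    · intro ω ω' hω hω' h
      have e2 : g ω = g ω' := hg ω ω' hω hω' (WDC.adp_of_det h1 (Nat.le_add_right i k) hω hω' h)
      rw [e2]
      congr 1
      refine Finset.prod_congr rfl fun j hj => ?_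
      have hj := (Finset.mem_Ico.1 hj).2
      exact fac_congr (WDC.adp_of_det h1 hj.le hω hω' h)
        (h2 j ω ω' hω hω' (WDC.adp_of_det h1 (by omega) hω hω' h))

/-- The product of the conditional probabilities of the digits. -/
lemma prod_dg (hp : IsLaw p) (h1 : ∀ j, Det p (V (j + 1)) (V j))
    (h2 : ∀ j, Det p (V (j + 1)) (T j)) (h3 : ∀ j, Det p (fun ω => (T j ω, V j ω)) (V (j + 1)))
    (i k : ℕ) {ω : Ω} (hω : 0 < p ω) :
    ∏ j ∈ Finset.Ico i (i + k), dg p (V j) (T j) ω = Pool.KA.cpr p (V (i + k)) (V i) ω := by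
  have hlaw : ∀ j, 0 < law p (V j) (V j ω) := fun j => law_pos hp.nonneg _ hω
  have e1 : Pool.KA.cpr p (V (i + k)) (V i) ω =
      law p (V (i + k)) (V (i + k) ω) / law p (V i) (V i ω) := by
    unfold Pool.KA.cpr
    congr 1
    refine le_antisymm (law_mono_of_det hp.nonneg (X := fun w => (V (i + k) w, V i w)) ?_ hω)
      (law_mono_of_det hp.nonneg (Y := fun w => (V (i + k) w, V i w)) ?_ hω)
    · intro a a' _ _ h
      exact (Prod.ext_iff.1 h).1
    · intro a a' ha ha' h
      exact Prod.ext h (WDC.adp_of_det h1 (Nat.le_add_right i k) ha ha' h)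
  rw [e1]
  induction k with
  | zero =>
    simp only [add_zero, Finset.Ico_self, Finset.prod_empty]
    rw [div_self (hlaw i).ne']
  | succ k ih =>
    rw [← add_assoc, Finset.prod_Ico_succ_top (Nat.le_add_right i k), ih (by
      unfold Pool.KA.cpr
      congr 1
      refine le_antisymm (law_mono_of_det hp.nonneg (X := fun w => (V (i + k) w, V i w)) ?_ hω)
        (law_mono_of_det hp.nonneg (Y := fun w => (V (i + k) w, V i w)) ?_ hω)
      · intro a a' _ _ h
        exact (Prod.ext_iff.1 h).1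
      · intro a a' ha ha' h
        exact Prod.ext h (WDC.adp_of_det h1 (Nat.le_add_right i k) ha ha' h))]
    have e2 : dg p (V (i + k)) (T (i + k)) ω =
        law p (V (i + k + 1)) (V (i + k + 1) ω) / law p (V (i + k)) (V (i + k) ω) := by
      unfold dg
      rw [law_cond]
      congr 1
      refine le_antisymm (law_mono_of_det hp.nonneg
        (X := fun w => (T (i + k) w, V (i + k) w)) (h3 (i + k)) hω)
        (law_mono_of_det hp.nonneg (Y := fun w => (T (i + k) w, V (i + k) w)) ?_ hω)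
      intro a a' ha ha' h
      exact Prod.ext (h2 _ a a' ha ha' h) (h1 _ a a' ha ha' h)
    rw [e2]
    have := (hlaw (i + k)).ne'
    field_simp

/-- The conditional probability of the actual digit. -/
lemma two_dg_le (hp : IsLaw p) (V : Ω → σ) (T : Ω → Bool) {ω : Ω} (hω : 0 < p ω) :
    2 * dg p V T ω ≤ Real.exp (Real.sqrt (2 * df p V T ω)) := by
  have hq : IsLaw (Pool.Agent.H49.Ent.cond p V (V ω)) :=
    ⟨fun a => cond_nonneg hp.nonneg _ _ a, sum_cond p _ (law_pos hp.nonneg V hω).ne'⟩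
  set q := Pool.Agent.H49.Ent.cond p V (V ω) with hqd
  have hsum : law q T true + law q T false = 1 := by
    have h := sum_bool q T (fun _ => 1)
    simp only [mul_one] at h
    rw [← h, hq.sum_one]
  have hH : df p V T ω = Real.log 2 + (law q T true * Real.log (law q T true) +
      law q T false * Real.log (law q T false)) := by
    unfold df H
    rw [← hqd, sum_bool q T (fun b => Real.log (law q T b)), sub_neg_eq_add]
  have key : ∀ u v : ℝ, 0 ≤ u → 0 ≤ v → u + v = 1 →
      2 * (u - 1 / 2) ^ 2 ≤ Real.log 2 + (u * Real.log u + v * Real.log v) := by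
    intro u v hu hv h
    have h1 := Pool.Agent.H99.LowerTail.relEnt_pinsker (b := 1 / 2) (w := u) (by norm_num)
      (by norm_num) hu (by linarith)
    refine h1.trans (le_of_eq ?_)
    have hv' : 1 - u = v := by linarith
    have key : ∀ t : ℝ, 0 ≤ t → t * Real.log (t / (1 / 2)) = t * Real.log t + t * Real.log 2 := by
      intro t ht
      rcases ht.eq_or_lt with h0 | h0
      · rw [← h0]
        simp
      · rw [div_div_eq_mul_div, div_one, Real.log_mul h0.ne' (by norm_num)]
        ring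
    unfold Pool.Agent.H99.LowerTail.relEnt
    rw [hv', show (1 : ℝ) - 1 / 2 = 1 / 2 by norm_num, key u hu, key v hv]
    have : Real.log 2 = u * Real.log 2 + v * Real.log 2 := by
      rw [← add_mul, h, one_mul]
    linarith
  have hn1 := law_nonneg hq.nonneg T true
  have hn2 := law_nonneg hq.nonneg T false
  have h4 : 2 * (dg p V T ω - 1 / 2) ^ 2 ≤ df p V T ω := by
    rw [hH]
    unfold dg
    rw [← hqd]
    cases T ω
    · have := key _ _ hn2 hn1 (by linarith)
      linarith
    · exact key _ _ hn1 hn2 hsum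
  have h5 : 2 * dg p V T ω - 1 ≤ Real.sqrt (2 * df p V T ω) := by
    refine Real.le_sqrt_of_sq_le ?_
    nlinarith
  have h6 := Real.add_one_le_exp (Real.sqrt (2 * df p V T ω))
  linarith

end TD

/-- TD0. Pathwise density: no exceptional set. If the deficits of the digits `[i, i + k)` add up
to at most `ε k`, the conditional probability of the actual digits is at most
`2 ^ (-k) exp (k √(2 ε))`. -/
theorem td0_thm {Ω σ : Type} [Fintype Ω] {p : Ω → ℝ} (hp : IsLaw p) {V : ℕ → Ω → σ}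
    {T : ℕ → Ω → Bool} (h1 : ∀ j, Det p (V (j + 1)) (V j)) (h2 : ∀ j, Det p (V (j + 1)) (T j))
    (h3 : ∀ j, Det p (fun ω => (T j ω, V j ω)) (V (j + 1))) (i k : ℕ) {ω : Ω} (hω : 0 < p ω) :
    2 ^ k * Pool.KA.cpr p (V (i + k)) (V i) ω ≤
      Real.exp (Real.sqrt (2 * k * ∑ j ∈ Finset.Ico i (i + k), TD.df p (V j) (T j) ω)) := by
  rw [← TD.prod_dg hp h1 h2 h3 i k hω]
  have e1 : (2 : ℝ) ^ k * ∏ j ∈ Finset.Ico i (i + k), TD.dg p (V j) (T j) ω =
      ∏ j ∈ Finset.Ico i (i + k), (2 * TD.dg p (V j) (T j) ω) := by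
    rw [Finset.prod_mul_distrib, Finset.prod_const, Nat.card_Ico, Nat.add_sub_cancel_left]
  rw [e1]
  have e2 : ∏ j ∈ Finset.Ico i (i + k), (2 * TD.dg p (V j) (T j) ω) ≤
      ∏ j ∈ Finset.Ico i (i + k), Real.exp (Real.sqrt (2 * TD.df p (V j) (T j) ω)) :=
    Finset.prod_le_prod (fun j _ => mul_nonneg (by norm_num) (TD.dg_nonneg hp.nonneg _ _ _))
      (fun j _ => TD.two_dg_le hp (V j) (T j) hω)
  refine e2.trans ?_
  rw [← Real.exp_sum]
  refine Real.exp_le_exp.2 ?_
  refine Real.le_sqrt_of_sq_le ?_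
  have hcs := Finset.sum_mul_sq_le_sq_mul_sq (Finset.Ico i (i + k)) (fun _ => (1 : ℝ))
    (fun j => Real.sqrt (2 * TD.df p (V j) (T j) ω))
  simp only [one_mul, one_pow, Finset.sum_const, Nat.card_Ico, Nat.add_sub_cancel_left,
    nsmul_eq_mul, mul_one] at hcs
  refine hcs.trans (le_of_eq ?_)
  have e3 : ∑ j ∈ Finset.Ico i (i + k), Real.sqrt (2 * TD.df p (V j) (T j) ω) ^ 2 =
      ∑ j ∈ Finset.Ico i (i + k), 2 * TD.df p (V j) (T j) ω :=
    Finset.sum_congr rfl fun j _ =>
      Real.sq_sqrt (mul_nonneg (by norm_num) (TD.df_nonneg hp (V j) (T j) hω))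
  rw [e3, ← Finset.mul_sum]
  ring

/-- TD1. Pointwise density of the digits `[i, i + k)` given `V i`. -/
theorem td1_thm {Ω σ : Type} [Fintype Ω] {p : Ω → ℝ} (hp : IsLaw p) {V : ℕ → Ω → σ}
    {T : ℕ → Ω → Bool} (h1 : ∀ j, Det p (V (j + 1)) (V j)) (h2 : ∀ j, Det p (V (j + 1)) (T j))
    (h3 : ∀ j, Det p (fun ω => (T j ω, V j ω)) (V (j + 1))) (i k : ℕ) (x : ℝ) {ω₀ : Ω}
    (hω₀ : 0 < p ω₀) :
    Pr (Pool.Agent.H49.Ent.cond p (V i) (V i ω₀)) {ω |
      Real.exp (2 * ∑ j ∈ Finset.Ico i (i + k), TD.df p (V j) (T j) ω + x) <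
        2 ^ k * Pool.KA.cpr p (V (i + k)) (V i) ω} ≤ Real.exp (-x) := by
  classical
  set q := Pool.Agent.H49.Ent.cond p (V i) (V i ω₀) with hqd
  have hl : 0 < law p (V i) (V i ω₀) := law_pos hp.nonneg _ hω₀
  have hq : IsLaw q := ⟨fun a => cond_nonneg hp.nonneg _ _ a, sum_cond p _ hl.ne'⟩
  have hM := TD.ex_prod hp h1 h2 i k
    (fun ω => if V i ω = V i ω₀ then 1 / law p (V i) (V i ω₀) else 0)
    (fun ω => by split_ifs; exacts [by positivity, le_rfl])
    (fun ω ω' _ _ h => by rw [h])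
  have e1 : Ex p (fun ω => (if V i ω = V i ω₀ then 1 / law p (V i) (V i ω₀) else 0) *
      ∏ j ∈ Finset.Ico i (i + k), TD.fac p (V j) (T j) ω) =
      Ex q (fun ω => ∏ j ∈ Finset.Ico i (i + k), TD.fac p (V j) (T j) ω) := by
    unfold Ex
    refine Finset.sum_congr rfl fun ω _ => ?_
    rw [hqd]
    unfold Pool.Agent.H49.Ent.cond
    beta_reduce
    by_cases h : V i ω = V i ω₀
    · rw [if_pos h, if_pos h]
      ring
    · rw [if_neg h, if_neg h]
      ring
  have e2 : Ex p (fun ω => if V i ω = V i ω₀ then 1 / law p (V i) (V i ω₀) else 0) = 1 := by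
    refine Eq.trans ?_ hq.sum_one
    unfold Ex
    refine Finset.sum_congr rfl fun ω _ => ?_
    rw [hqd]
    unfold Pool.Agent.H49.Ent.cond
    beta_reduce
    by_cases h : V i ω = V i ω₀
    · rw [if_pos h, if_pos h]
      ring
    · rw [if_neg h, if_neg h, mul_zero]
  rw [e1, e2] at hM
  have e3 : ∀ ω, 0 < q ω → ∏ j ∈ Finset.Ico i (i + k), TD.fac p (V j) (T j) ω =
      2 ^ k * Pool.KA.cpr p (V (i + k)) (V i) ω *
        Real.exp (-(2 * ∑ j ∈ Finset.Ico i (i + k), TD.df p (V j) (T j) ω)) := by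
    intro ω hω
    obtain ⟨hpω, _⟩ := (cond_pos_iff hp.nonneg _ _ ω).1 hω
    unfold TD.fac
    rw [Finset.prod_mul_distrib, Finset.prod_mul_distrib, Finset.prod_const, Nat.card_Ico,
      Nat.add_sub_cancel_left, TD.prod_dg hp h1 h2 h3 i k hpω, ← Real.exp_sum,
      Finset.sum_neg_distrib, Finset.mul_sum]
  -- Markov
  have h4 : Real.exp x * Pr q {ω |
      Real.exp (2 * ∑ j ∈ Finset.Ico i (i + k), TD.df p (V j) (T j) ω + x) <
        2 ^ k * Pool.KA.cpr p (V (i + k)) (V i) ω} ≤
      Ex q (fun ω => ∏ j ∈ Finset.Ico i (i + k), TD.fac p (V j) (T j) ω) := by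
    rw [CDF.Pr_eq, Finset.mul_sum]
    unfold Ex
    refine Finset.sum_le_sum fun ω _ => ?_
    rcases (hq.nonneg ω).eq_or_lt with h0 | h0
    · rw [← h0]
      simp
    · by_cases hE : ω ∈ {ω |
          Real.exp (2 * ∑ j ∈ Finset.Ico i (i + k), TD.df p (V j) (T j) ω + x) <
          2 ^ k * Pool.KA.cpr p (V (i + k)) (V i) ω}
      · rw [if_pos hE, mul_comm]
        beta_reduce
        rw [e3 ω h0]
        refine mul_le_mul_of_nonneg_left ?_ h0.le
        have hE' : Real.exp (2 * ∑ j ∈ Finset.Ico i (i + k), TD.df p (V j) (T j) ω + x) <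
          2 ^ k * Pool.KA.cpr p (V (i + k)) (V i) ω := hE
        have h5 := mul_le_mul_of_nonneg_right hE'.le
          (Real.exp_pos (-(2 * ∑ j ∈ Finset.Ico i (i + k), TD.df p (V j) (T j) ω))).le
        rw [← Real.exp_add] at h5
        refine le_trans (le_of_eq ?_) h5
        congr 1
        ring
      · rw [if_neg hE, mul_zero]
        exact mul_nonneg h0.le (Finset.prod_nonneg fun j _ => TD.fac_nonneg hp.nonneg _ _ _)
  have h5 := h4.trans hM
  rw [Real.exp_neg, ← one_div, le_div_iff₀ (Real.exp_pos x), mul_comm]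
  exact h5

end Pool.KX
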