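import Pool.Agent.H54.KVA.Defs
import Pool.Agent.H81.KVA.MAXP

/-!
# One translation which almost fixes a law makes the cells small

If the mass of the intervals of length `L` changes by at most `e` under one translation of size at
least `L`, then all these intervals have mass at most `1 / n + n e`, for every `n`.
-/

set_option autoImplicit false

namespace Pool.KX

open Finset Real
open Pool.Agent.H49.Ent Pool.Agent.H32.Dense Pool.STK Pool.KVA

open Classical in
/-- The mass of an event. -/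
noncomputable def ms {Ω : Type} [Fintype Ω] (p : Ω → ℝ) (A : Ω → Prop) : ℝ :=
  ∑ ω, if A ω then p ω else 0

section

variable {Ω : Type} [Fintype Ω]

lemma ms_nonneg {p : Ω → ℝ} (hp : ∀ ω, 0 ≤ p ω) (A : Ω → Prop) : 0 ≤ ms p A := by
  classical
  unfold ms
  refine Finset.sum_nonneg fun ω _ => ?_
  by_cases h : A ω
  · rw [if_pos h]; exact hp ω
  · rw [if_neg h]

/-- Disjoint events. -/
lemma ms_disjoint {p : Ω → ℝ} (hp : IsLaw p) (n : ℕ) (A : ℕ → Ω → Prop)
    (h : ∀ ω i j, A i ω → A j ω → i = j) : ∑ j ∈ range n, ms p (A j) ≤ 1 := by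
  classical
  unfold ms
  rw [Finset.sum_comm, ← hp.sum_one]
  refine Finset.sum_le_sum fun ω _ => ?_
  by_cases hex : ∃ i ∈ range n, A i ω
  · obtain ⟨i, hi, hA⟩ := hex
    rw [Finset.sum_eq_single i]
    · rw [if_pos hA]
    · intro j _ hj
      rw [if_neg (fun h' => hj (h ω j i h' hA))]
    · intro h'
      exact absurd hi h'
  · rw [Finset.sum_eq_zero]
    · exact hp.nonneg ω
    · intro j hj
      rw [if_neg (fun h' => hex ⟨j, hj, h'⟩)]

theorem tri_thm {p : Ω → ℝ} (hp : IsLaw p) (X : Ω → ℝ) (x L e : ℝ) (n : ℕ)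
    (hx : L ≤ |x|) (hn : 1 ≤ n) (he : 0 ≤ e)
    (h : ∀ a, ms p (fun ω => a ≤ X ω ∧ X ω < a + L) ≤
      ms p (fun ω => a + x ≤ X ω ∧ X ω < a + x + L) + e) (a : ℝ) :
    ms p (fun ω => a ≤ X ω ∧ X ω < a + L) ≤ 1 / n + n * e := by
  classical
  have h1 : ∀ j : ℕ, ms p (fun ω => a ≤ X ω ∧ X ω < a + L) ≤
      ms p (fun ω => a + j * x ≤ X ω ∧ X ω < a + j * x + L) + j * e := by
    intro j
    induction j with
    | zero => simp
    | succ j ih =>
      have h2 := h (a + j * x)
      have e1 : a + j * x + x = a + ((j + 1 : ℕ) : ℝ) * x := by push_cast; ring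
      rw [e1] at h2
      push_cast at h2 ⊢
      linarith
  have h3 : (n : ℝ) * ms p (fun ω => a ≤ X ω ∧ X ω < a + L) ≤
      ∑ j ∈ range n, ms p (fun ω => a + j * x ≤ X ω ∧ X ω < a + j * x + L) + n * (n * e) := by
    have h4 : ∑ _j ∈ range n, ms p (fun ω => a ≤ X ω ∧ X ω < a + L) ≤
        ∑ j ∈ range n, (ms p (fun ω => a + j * x ≤ X ω ∧ X ω < a + j * x + L) + n * e) := by
      refine Finset.sum_le_sum fun j hj => (h1 j).trans ?_
      have h5 : (j : ℝ) ≤ n := by exact_mod_cast (Finset.mem_range.mp hj).le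
      have h6 := mul_le_mul_of_nonneg_right h5 he
      linarith
    rw [Finset.sum_const, Finset.card_range, nsmul_eq_mul, Finset.sum_add_distrib,
      Finset.sum_const, Finset.card_range, nsmul_eq_mul] at h4
    exact h4
  have h7 : ∑ j ∈ range n, ms p (fun ω => a + j * x ≤ X ω ∧ X ω < a + j * x + L) ≤ 1 := by
    refine ms_disjoint hp n _ ?_
    intro ω i j hi hj
    by_contra hne
    have hij : (1 : ℝ) ≤ |(i : ℝ) - j| := by
      have h8 : (1 : ℤ) ≤ |(i : ℤ) - j| := by
        refine Int.one_le_abs ?_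
        intro h9
        exact hne (by omega)
      exact_mod_cast h8
    have h10 : |((i : ℝ) - j) * x| < L := by
      rw [abs_lt]
      constructor
      · linarith [hi.1, hi.2, hj.1, hj.2]
      · linarith [hi.1, hi.2, hj.1, hj.2]
    rw [abs_mul] at h10
    have h11 : |x| ≤ |(i : ℝ) - j| * |x| := le_mul_of_one_le_left (abs_nonneg x) hij
    linarith
  have hn0 : (0 : ℝ) < n := by exact_mod_cast hn
  have h12 : (n : ℝ) * ms p (fun ω => a ≤ X ω ∧ X ω < a + L) ≤ 1 + n * (n * e) := by linarith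
  have h13 : ms p (fun ω => a ≤ X ω ∧ X ω < a + L) ≤ (1 + n * (n * e)) / n := by
    rw [le_div_iff₀ hn0]
    linarith
  refine h13.trans (le_of_eq ?_)
  field_simp

/-- The same for the entropy of the rounded variable. -/
theorem tri_entropy {p : Ω → ℝ} (hp : IsLaw p) (X : Ω → ℝ) (x e : ℝ) (j n : ℕ)
    (hx : 1 / 2 ^ j ≤ |x|) (hn : 1 ≤ n) (he : 0 ≤ e)
    (h : ∀ a, ms p (fun ω => a ≤ X ω ∧ X ω < a + 1 / 2 ^ j) ≤
      ms p (fun ω => a + x ≤ X ω ∧ X ω < a + x + 1 / 2 ^ j) + e) :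
    -Real.log (1 / n + n * e) ≤ H p (fun ω => ⌊(2 : ℝ) ^ j * X ω⌋) := by
  classical
  have h1 : ∀ z : ℤ, law p (fun ω => ⌊(2 : ℝ) ^ j * X ω⌋) z ≤ 1 / n + n * e := by
    intro z
    refine le_trans ?_ (tri_thm hp X x (1 / 2 ^ j) e n hx hn he h ((z : ℝ) / 2 ^ j))
    unfold law ms
    refine Finset.sum_le_sum fun ω _ => ?_
    by_cases hz : ⌊(2 : ℝ) ^ j * X ω⌋ = z
    · rw [if_pos hz]
      rw [if_pos]
      have h2 := Int.floor_le ((2 : ℝ) ^ j * X ω)
      have h3 := Int.lt_floor_add_one ((2 : ℝ) ^ j * X ω)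
      rw [hz] at h2 h3
      have h4 : (0 : ℝ) < 2 ^ j := by positivity
      constructor
      · rw [div_le_iff₀ h4]
        linarith
      · rw [← add_div, lt_div_iff₀ h4]
        linarith
    · rw [if_neg hz]
      by_cases hw : (z : ℝ) / 2 ^ j ≤ X ω ∧ X ω < (z : ℝ) / 2 ^ j + 1 / 2 ^ j
      · rw [if_pos hw]; exact hp.nonneg ω
      · rw [if_neg hw]
  have h5 := maxp_thm Ω ℤ Unit p (fun ω => ⌊(2 : ℝ) ^ j * X ω⌋) (fun _ => ())
    (fun _ => 1 / n + n * e) hp (by
      intro ω _ z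
      have hc : cond p (fun _ : Ω => ()) () = p := by
        funext ω'
        unfold Pool.Agent.H49.Ent.cond
        rw [if_pos rfl]
        have : law p (fun _ : Ω => ()) () = 1 := by
          unfold law
          simp [hp.sum_one]
        rw [this, div_one]
      rw [hc]
      exact h1 z)
  rw [Ex_const hp.sum_one] at h5
  refine h5.trans (le_of_eq ?_)
  unfold CH
  rw [H_const hp.sum_one, sub_zero]
  refine H_congr hp.nonneg ?_ ?_
  · intro ω ω' _ _ hh
    exact Prod.ext hh rfl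
  · intro ω ω' _ _ hh
    exact (Prod.ext_iff.mp hh).1

end

end Pool.KX
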