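import Pool.Agent.H54.KVA.D1

/-!
# Saturation in two directions
-/

set_option autoImplicit false

namespace Pool.KX

open Finset Real
open Pool.Agent.H49.Ent Pool.Agent.H32.Dense Pool.STK Pool.KVA

variable {Ω κ : Type} [Fintype Ω]

/-- The coordinate transversal to the direction `(f, 1)`. -/
def tr (ν y f : Ω → ℝ) (ω : Ω) : ℝ := ν ω - f ω * y ω

/-- If a real number is known up to `L` units of scale `2 ^ (-j)`, its integer part has small
entropy. -/
lemma ent_near {T : Type} {p : Ω → ℝ} (hp : IsLaw p) (X : Ω → ℝ) (W : Ω → T) (j : ℕ) (L : ℝ)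
    (h : ∀ ω ω', 0 < p ω → 0 < p ω' → W ω = W ω' → |2 ^ j * X ω - 2 ^ j * X ω'| ≤ L) :
    CH p (f1 X j) W ≤ Real.log (2 * (L + 1) + 1) := by
  have h1 := CH_le_int hp.nonneg hp.sum_one (f1 X j) W (fun _ => L + 1) (by
    intro ω ω' a b e
    have h2 := h ω ω' a b e
    have a1 := Int.floor_le ((2 : ℝ) ^ j * X ω)
    have a2 := Int.lt_floor_add_one ((2 : ℝ) ^ j * X ω)
    have b1 := Int.floor_le ((2 : ℝ) ^ j * X ω')
    have b2 := Int.lt_floor_add_one ((2 : ℝ) ^ j * X ω')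
    rw [abs_le] at h2 ⊢
    unfold f1
    push_cast
    constructor <;> linarith [h2.1, h2.2])
  rw [Ex_const hp.sum_one] at h1
  exact h1

omit [Fintype Ω] in
/-- Equal integer parts at scale `2 ^ (-j)`. -/
lemma near_of_f1 {X : Ω → ℝ} {j : ℕ} {ω ω' : Ω} (h : f1 X j ω = f1 X j ω') :
    |2 ^ j * X ω - 2 ^ j * X ω'| ≤ 1 := by
  have a1 := Int.floor_le ((2 : ℝ) ^ j * X ω)
  have a2 := Int.lt_floor_add_one ((2 : ℝ) ^ j * X ω)
  have b1 := Int.floor_le ((2 : ℝ) ^ j * X ω')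
  have b2 := Int.lt_floor_add_one ((2 : ℝ) ^ j * X ω')
  unfold f1 at h
  rw [h] at a1 a2
  rw [abs_le]
  constructor <;> linarith

/-- Two directions. -/
theorem two_thm : ∃ C : ℝ, 0 ≤ C ∧ ∀ (Ω κ : Type) [Fintype Ω] (p : Ω → ℝ) (ν y f f' : Ω → ℝ)
    (c : Ω → κ) (j g u : ℕ), IsLaw p → u ≤ j → (∀ ω, |f ω| ≤ 1) → (∀ ω, |f' ω| ≤ 1) →
    Det p c f → Det p c f' → (∀ ω, 0 < p ω → 1 / 2 ^ u ≤ |f ω - f' ω|) →
    CH p (f1 y j) (fun ω => (f1 (tr ν y f) j ω, (f1 ν (j - g) ω, f1 y (j - g) ω), c ω)) +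
      CH p (f1 y j) (fun ω => (f1 (tr ν y f') j ω, (f1 ν (j - g) ω, f1 y (j - g) ω), c ω)) -
        2 * (u * Real.log 2) - C ≤
      CH p (fun ω => (f1 ν j ω, f1 y j ω)) (fun ω => ((f1 ν (j - g) ω, f1 y (j - g) ω), c ω)) := by
  refine ⟨2 * Real.log 7 + 2 * Real.log 21 + 4 * Real.log 13, ?_, ?_⟩
  · have h1 : 0 ≤ Real.log 7 := Real.log_nonneg (by norm_num)
    have h2 : 0 ≤ Real.log 21 := Real.log_nonneg (by norm_num)
    have h3 : 0 ≤ Real.log 13 := Real.log_nonneg (by norm_num)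
    linarith
  intro Ω κ _ p ν y f f' c j g u hp huj hf hf' hcf hcf' hff
  set W : Ω → (ℤ × ℤ) × κ := fun ω => ((f1 ν (j - g) ω, f1 y (j - g) ω), c ω) with hW
  have hWc : Det p W c := fun ω ω' _ _ h => (Prod.ext_iff.mp h).2
  -- one direction
  have one : ∀ f : Ω → ℝ, (∀ ω, |f ω| ≤ 1) → Det p c f →
      CH p (f1 (tr ν y f) j) W + CH p (f1 y j) (fun ω => (f1 (tr ν y f) j ω, W ω)) ≤
        CH p (fun ω => (f1 ν j ω, f1 y j ω)) W + Real.log 7 := by
    intro f hf hcf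
    have e1 := CH_chain hp.nonneg (f1 y j) (f1 (tr ν y f) j) W
    have e2 := CH_le_add hp.nonneg (fun ω => (f1 y j ω, f1 (tr ν y f) j ω))
      (fun ω => (f1 ν j ω, f1 y j ω)) W
    have e3 : CH p (fun ω => (f1 y j ω, f1 (tr ν y f) j ω))
        (fun ω => ((f1 ν j ω, f1 y j ω), W ω)) ≤ Real.log 7 := by
      have e4 : CH p (fun ω => (f1 y j ω, f1 (tr ν y f) j ω))
          (fun ω => ((f1 ν j ω, f1 y j ω), W ω)) ≤
          CH p (f1 (tr ν y f) j) (fun ω => ((f1 ν j ω, f1 y j ω), W ω)) := by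
        refine CH_mono_left hp.nonneg ?_
        intro ω ω' _ _ h
        simp only [Prod.mk.injEq] at h ⊢
        tauto
      refine e4.trans ((ent_near hp (tr ν y f) _ j 2 ?_).trans (le_of_eq (by norm_num)))
      intro ω ω' a b h
      simp only [Prod.mk.injEq] at h
      have h1 := near_of_f1 h.1.1
      have h2 := near_of_f1 h.1.2
      have h3 : f ω = f ω' := hcf ω ω' a b (hWc ω ω' a b h.2)
      have h4 : 2 ^ j * tr ν y f ω - 2 ^ j * tr ν y f ω' =
          (2 ^ j * ν ω - 2 ^ j * ν ω') - f ω * (2 ^ j * y ω - 2 ^ j * y ω') := by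
        unfold tr
        rw [← h3]
        ring
      rw [h4]
      refine (abs_sub _ _).trans ?_
      rw [abs_mul]
      have h5 := mul_le_mul (hf ω) h2 (abs_nonneg _) zero_le_one
      linarith
    linarith
  have o1 := one f hf hcf
  have o2 := one f' hf' hcf'
  -- both coordinates together
  have e1 := CH_subadd hp.nonneg (f1 (tr ν y f) j) (f1 (tr ν y f') j) W
  have e2 := CH_le_add hp.nonneg (fun ω => (f1 ν (j - u) ω, f1 y (j - u) ω))
    (fun ω => (f1 (tr ν y f) j ω, f1 (tr ν y f') j ω)) W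
  have hpow : (2 : ℝ) ^ j = 2 ^ (j - u) * 2 ^ u := by
    rw [← pow_add]
    congr 1
    omega
  have hy : ∀ ω ω', 0 < p ω → 0 < p ω' →
      ((f1 (tr ν y f) j ω, f1 (tr ν y f') j ω), W ω) =
      ((f1 (tr ν y f) j ω', f1 (tr ν y f') j ω'), W ω') →
      |2 ^ (j - u) * y ω - 2 ^ (j - u) * y ω'| ≤ 2 ∧
      |2 ^ (j - u) * ν ω - 2 ^ (j - u) * ν ω'| ≤ 3 := by
    intro ω ω' a b h
    simp only [Prod.mk.injEq] at h
    have h1 := near_of_f1 h.1.1
    have h2 := near_of_f1 h.1.2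
    have h3 : f ω = f ω' := hcf ω ω' a b (hWc ω ω' a b h.2)
    have h3' : f' ω = f' ω' := hcf' ω ω' a b (hWc ω ω' a b h.2)
    have hu : (0 : ℝ) < 2 ^ u := by positivity
    have hju : (0 : ℝ) < 2 ^ (j - u) := by positivity
    -- the second coordinate
    have h4 : (2 ^ j * tr ν y f' ω - 2 ^ j * tr ν y f' ω') -
        (2 ^ j * tr ν y f ω - 2 ^ j * tr ν y f ω') =
        2 ^ u * (f ω - f' ω) * (2 ^ (j - u) * y ω - 2 ^ (j - u) * y ω') := by
      unfold tr
      rw [← h3, ← h3', hpow]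
      ring
    have h5 : |2 ^ u * (f ω - f' ω) * (2 ^ (j - u) * y ω - 2 ^ (j - u) * y ω')| ≤ 2 := by
      rw [← h4]
      refine (abs_sub _ _).trans ?_
      linarith
    have h6 : 1 ≤ |2 ^ u * (f ω - f' ω)| := by
      rw [abs_mul, abs_of_pos hu]
      have h7 := hff ω a
      rw [div_le_iff₀ hu] at h7
      linarith
    rw [abs_mul] at h5
    have h8 : |2 ^ (j - u) * y ω - 2 ^ (j - u) * y ω'| ≤ 2 := by
      have h9 := mul_le_mul_of_nonneg_right h6
        (abs_nonneg (2 ^ (j - u) * y ω - 2 ^ (j - u) * y ω'))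
      linarith
    refine ⟨h8, ?_⟩
    -- the first coordinate
    have h10 : 2 ^ (j - u) * ν ω - 2 ^ (j - u) * ν ω' =
        (2 ^ j * tr ν y f ω - 2 ^ j * tr ν y f ω') / 2 ^ u +
          f ω * (2 ^ (j - u) * y ω - 2 ^ (j - u) * y ω') := by
      unfold tr
      rw [← h3, hpow]
      field_simp
      ring
    rw [h10]
    refine (abs_add_le _ _).trans ?_
    rw [abs_div, abs_mul, abs_of_pos hu]
    have h11 : |2 ^ j * tr ν y f ω - 2 ^ j * tr ν y f ω'| / 2 ^ u ≤ 1 := by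
      rw [div_le_one hu]
      refine h1.trans ?_
      exact one_le_pow₀ (by norm_num)
    have h12 := mul_le_mul (hf ω) h8 (abs_nonneg _) zero_le_one
    linarith
  have e3 : CH p (fun ω => (f1 ν (j - u) ω, f1 y (j - u) ω))
      (fun ω => ((f1 (tr ν y f) j ω, f1 (tr ν y f') j ω), W ω)) ≤
      Real.log 9 + Real.log 7 := by
    refine (CH_subadd hp.nonneg _ _ _).trans ?_
    refine add_le_add ?_ ?_
    · refine (ent_near hp ν _ (j - u) 3 fun ω ω' a b h => (hy ω ω' a b h).2).trans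
        (le_of_eq (by norm_num))
    · refine (ent_near hp y _ (j - u) 2 fun ω ω' a b h => (hy ω ω' a b h).1).trans
        (le_of_eq (by norm_num))
  -- the last digits
  have e4 := CH_le_add hp.nonneg (fun ω => (f1 ν j ω, f1 y j ω))
    (fun ω => (f1 ν (j - u) ω, f1 y (j - u) ω)) W
  have hdig : ∀ X : Ω → ℝ, ∀ V : Ω → (ℤ × ℤ) × ((ℤ × ℤ) × κ),
      Det p V (f1 X (j - u)) →
      CH p (f1 X j) V ≤ u * Real.log 2 + Real.log 7 := by
    intro X V hV
    refine (ent_near hp X V j (2 ^ u) ?_).trans ?_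
    · intro ω ω' a b h
      have h1 := near_of_f1 (hV ω ω' a b h)
      have h2 : (2 : ℝ) ^ j * X ω - 2 ^ j * X ω' =
          2 ^ u * (2 ^ (j - u) * X ω - 2 ^ (j - u) * X ω') := by
        rw [hpow]
        ring
      have hu : (0 : ℝ) < 2 ^ u := by positivity
      rw [h2, abs_mul, abs_of_pos hu]
      have h3 := mul_le_mul_of_nonneg_left h1 hu.le
      linarith
    · have h1 : (1 : ℝ) ≤ 2 ^ u := one_le_pow₀ (by norm_num)
      have h2 : (2 : ℝ) * (2 ^ u + 1) + 1 ≤ 2 ^ u * 7 := by linarith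
      refine (Real.log_le_log (by positivity) h2).trans ?_
      rw [Real.log_mul (by positivity) (by norm_num), Real.log_pow]
  have e5 : CH p (fun ω => (f1 ν j ω, f1 y j ω))
      (fun ω => ((f1 ν (j - u) ω, f1 y (j - u) ω), W ω)) ≤
      2 * (u * Real.log 2) + 2 * Real.log 7 := by
    refine (CH_subadd hp.nonneg _ _ _).trans ?_
    have h1 := hdig ν (fun ω => ((f1 ν (j - u) ω, f1 y (j - u) ω), W ω))
      (fun ω ω' _ _ h => (Prod.ext_iff.mp (Prod.ext_iff.mp h).1).1)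
    have h2 := hdig y (fun ω => ((f1 ν (j - u) ω, f1 y (j - u) ω), W ω))
      (fun ω ω' _ _ h => (Prod.ext_iff.mp (Prod.ext_iff.mp h).1).2)
    linarith
  have l1 : Real.log 9 ≤ Real.log 21 := Real.log_le_log (by norm_num) (by norm_num)
  have l2 : Real.log 7 ≤ Real.log 13 := Real.log_le_log (by norm_num) (by norm_num)
  have l3 : 0 ≤ Real.log 21 := Real.log_nonneg (by norm_num)
  have l4 : 0 ≤ Real.log 13 := Real.log_nonneg (by norm_num)
  have l5 : 0 ≤ Real.log 7 := Real.log_nonneg (by norm_num)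
  linarith

end Pool.KX
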